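import Pool.Agent.Y52.PT.Rep

/-! # An angle estimate from counting in an incidence structure -/

set_option autoImplicit false

namespace Pool.Y52.PT

open scoped InnerProductSpace Classical
open Finset

variable {G : Type*} [Group G] [Fintype G]
variable {H : Type*} [NormedAddCommGroup H] [InnerProductSpace ℂ H] [CompleteSpace H]

theorem sum_act_eq_zero (ρ : G →* unitary (H →L[ℂ] H)) (x : H)
    (hx : ∀ s ∈ invs ρ (Set.univ : Set G), ⟪s, x⟫_ℂ = 0) : ∑ g : G, act ρ g x = 0 := by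
  set s := ∑ g : G, act ρ g x with hs
  have hsm : s ∈ invs ρ (Set.univ : Set G) := by
    intro a _
    rw [hs, map_sum]
    have h2 : ∀ g : G, act ρ a (act ρ g x) = (fun g => act ρ g x) (Equiv.mulLeft a g) := by
      intro g
      simp only [Equiv.coe_mulLeft]
      rw [act_mul]
    rw [Finset.sum_congr rfl (fun g _ => h2 g)]
    exact Equiv.sum_comp (Equiv.mulLeft a) (fun g => act ρ g x)
  have h1 : ⟪s, s⟫_ℂ = 0 := by
    conv_lhs => rw [hs]
    rw [sum_inner]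
    refine Finset.sum_eq_zero (fun g _ => ?_)
    rw [inner_act_left, hsm g⁻¹ (Set.mem_univ _), ← inner_conj_symm, hx s hsm, map_zero]
  exact inner_self_eq_zero.mp h1

theorem sq_sum_inner (ρ : G →* unitary (H →L[ℂ] H)) (A : Subgroup G) {W : Type*} [Fintype W]
    (I : G → W → Prop) (α β : ℕ)
    (hcount : ∀ g g', (Finset.univ.filter (fun w => I g w ∧ I g' w)).card =
      β + if g⁻¹ * g' ∈ A then α else 0) (x : H) (hx : x ∈ invs ρ (A : Set G))
    (hx0 : ∑ g : G, act ρ g x = 0) :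
    ∑ w : W, ‖∑ g ∈ Finset.univ.filter (fun g => I g w), act ρ g x‖ ^ 2 =
      α * (Fintype.card G * Fintype.card A) * ‖x‖ ^ 2 := by
  have key : (∑ w : W, ⟪∑ g ∈ Finset.univ.filter (fun g => I g w), act ρ g x,
      ∑ g ∈ Finset.univ.filter (fun g => I g w), act ρ g x⟫_ℂ) =
      α * (Fintype.card G * Fintype.card A) * ⟪x, x⟫_ℂ := by
    have e1 : ∀ w : W, ⟪∑ g ∈ Finset.univ.filter (fun g => I g w), act ρ g x,
        ∑ g ∈ Finset.univ.filter (fun g => I g w), act ρ g x⟫_ℂ =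
        ∑ g : G, ∑ g' : G, (if I g w ∧ I g' w then ⟪act ρ g x, act ρ g' x⟫_ℂ else 0) := by
      intro w
      rw [sum_inner, Finset.sum_filter]
      refine Finset.sum_congr rfl (fun g _ => ?_)
      split_ifs with h
      · rw [inner_sum, Finset.sum_filter]
        refine Finset.sum_congr rfl (fun g' _ => ?_)
        simp [h]
      · simp [h]
    rw [Finset.sum_congr rfl (fun w _ => e1 w), Finset.sum_comm]
    have e2 : ∀ g : G, ∑ w : W, ∑ g' : G,
        (if I g w ∧ I g' w then ⟪act ρ g x, act ρ g' x⟫_ℂ else 0) =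
        ∑ g' : G, ((β : ℂ) * ⟪act ρ g x, act ρ g' x⟫_ℂ +
          (if g⁻¹ * g' ∈ A then (α : ℂ) * ⟪act ρ g x, act ρ g' x⟫_ℂ else 0)) := by
      intro g
      rw [Finset.sum_comm]
      refine Finset.sum_congr rfl (fun g' _ => ?_)
      rw [← Finset.sum_filter, Finset.sum_const, hcount g g', nsmul_eq_mul]
      split_ifs <;> push_cast <;> ring
    rw [Finset.sum_congr rfl (fun g _ => e2 g)]
    have e3 : ∀ g : G, ∑ g' : G, ((β : ℂ) * ⟪act ρ g x, act ρ g' x⟫_ℂ +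
          (if g⁻¹ * g' ∈ A then (α : ℂ) * ⟪act ρ g x, act ρ g' x⟫_ℂ else 0)) =
        (α : ℂ) * (Fintype.card A * ⟪x, x⟫_ℂ) := by
      intro g
      rw [Finset.sum_add_distrib, ← Finset.mul_sum, ← inner_sum, hx0, inner_zero_right, mul_zero,
        zero_add]
      rw [← Equiv.sum_comp (Equiv.mulLeft g)]
      simp only [Equiv.coe_mulLeft, inv_mul_cancel_left]
      rw [← Finset.sum_filter]
      have e4 : ∀ a ∈ Finset.univ.filter (fun a : G => a ∈ A),
          (α : ℂ) * ⟪act ρ g x, act ρ (g * a) x⟫_ℂ = (α : ℂ) * ⟪x, x⟫_ℂ := by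
        intro a ha
        rw [Finset.mem_filter] at ha
        rw [act_mul, inner_act, hx a ha.2]
      rw [Finset.sum_congr rfl e4, Finset.sum_const, nsmul_eq_mul]
      have e5 : (Finset.univ.filter (fun a : G => a ∈ A)).card = Fintype.card A := by
        rw [Fintype.card_subtype]
      rw [e5]; ring
    rw [Finset.sum_congr rfl (fun g _ => e3 g), Finset.sum_const, Finset.card_univ, nsmul_eq_mul]
    ring
  have e6 : ∀ w : W, ⟪∑ g ∈ Finset.univ.filter (fun g => I g w), act ρ g x,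
      ∑ g ∈ Finset.univ.filter (fun g => I g w), act ρ g x⟫_ℂ =
      ((‖∑ g ∈ Finset.univ.filter (fun g => I g w), act ρ g x‖ ^ 2 : ℝ) : ℂ) := by
    intro w
    rw [inner_self_eq_norm_sq_to_K]; push_cast; rfl
  rw [Finset.sum_congr rfl (fun w _ => e6 w), inner_self_eq_norm_sq_to_K] at key
  have key2 : ((∑ w : W, ‖∑ g ∈ Finset.univ.filter (fun g => I g w), act ρ g x‖ ^ 2 : ℝ) : ℂ) =
      ((α * (Fintype.card G * Fintype.card A) * ‖x‖ ^ 2 : ℝ) : ℂ) := by
    push_cast at key ⊢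
    exact key
  exact_mod_cast key2

theorem angle_abstract (ρ : G →* unitary (H →L[ℂ] H)) (A B : Subgroup G) {W C : Type*}
    [Fintype W] [Fintype C]
    (I : G → W → Prop) (J : G → G → Prop) (p : G → C → W) (α β N : ℕ)
    (hcount : ∀ g g', (Finset.univ.filter (fun w => I g w ∧ I g' w)).card =
      β + if g⁻¹ * g' ∈ A then α else 0)
    (hIJ : ∀ g h c, I g (p h c) ↔ J g h)
    (hfib : ∀ w, (Finset.univ.filter (fun q : G × C => p q.1 q.2 = w)).card ≤ Fintype.card B)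
    (hJ : ∀ g h, J g h → ∃ a ∈ A, ∃ b ∈ B, g⁻¹ * h = a * b)
    (hN : (Finset.univ.filter (fun q : G × G => J q.1 q.2)).card = N)
    (x y : H) (hx : x ∈ invs ρ (A : Set G)) (hy : y ∈ invs ρ (B : Set G))
    (hx0 : ∑ g : G, act ρ g x = 0) :
    (N : ℝ) ^ 2 * Fintype.card C * ‖⟪x, y⟫_ℂ‖ ^ 2 ≤
      Fintype.card B * (α * (Fintype.card G * Fintype.card A)) * Fintype.card G *
        (‖x‖ * ‖y‖) ^ 2 := by
  set b : G → H := fun h => ∑ g ∈ Finset.univ.filter (fun g => J g h), act ρ g x with hb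
  have h1 : (N : ℂ) * ⟪x, y⟫_ℂ = ∑ h : G, ⟪b h, act ρ h y⟫_ℂ := by
    have e1 : ∀ h : G, ⟪b h, act ρ h y⟫_ℂ = ∑ g : G, if J g h then ⟪x, y⟫_ℂ else 0 := by
      intro h
      rw [hb, sum_inner, Finset.sum_filter]
      refine Finset.sum_congr rfl (fun g _ => ?_)
      split_ifs with hgh
      · obtain ⟨a, ha, b', hb', hab⟩ := hJ g h hgh
        rw [inner_act_left, ← act_mul, hab, act_mul, hy b' hb', ← inner_act ρ a⁻¹, act_inv_act,
          hx a⁻¹ (A.inv_mem ha)]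
      · rfl
    rw [Finset.sum_congr rfl (fun h _ => e1 h), Finset.sum_comm, ← Finset.sum_product',
      ← Finset.sum_filter, Finset.sum_const, nsmul_eq_mul]
    congr 2
    rw [← hN]
    rfl
  have h2 : (N : ℝ) * ‖⟪x, y⟫_ℂ‖ ≤ (∑ h : G, ‖b h‖) * ‖y‖ := by
    have : (N : ℝ) * ‖⟪x, y⟫_ℂ‖ = ‖(N : ℂ) * ⟪x, y⟫_ℂ‖ := by
      rw [norm_mul, Complex.norm_natCast]
    rw [this, h1, Finset.sum_mul]
    refine (norm_sum_le _ _).trans (Finset.sum_le_sum (fun h _ => ?_))
    refine (norm_inner_le_norm _ _).trans ?_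
    rw [norm_act]
  have h3 : (∑ h : G, ‖b h‖) ^ 2 ≤ Fintype.card G * ∑ h : G, ‖b h‖ ^ 2 := by
    have := sq_sum_le_card_mul_sum_sq (s := (Finset.univ : Finset G)) (f := fun h => ‖b h‖)
    simpa using this
  -- the sum over `W`
  set bb : W → ℝ := fun w => ‖∑ g ∈ Finset.univ.filter (fun g => I g w), act ρ g x‖ ^ 2 with hbb
  have h4 : (Fintype.card C : ℝ) * ∑ h : G, ‖b h‖ ^ 2 ≤ Fintype.card B * ∑ w : W, bb w := by
    have e1 : (Fintype.card C : ℝ) * ∑ h : G, ‖b h‖ ^ 2 =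
        ∑ q : G × C, bb (p q.1 q.2) := by
      rw [Fintype.sum_prod_type, Finset.mul_sum]
      refine Finset.sum_congr rfl (fun h _ => ?_)
      have : ∀ c : C, bb (p h c) = ‖b h‖ ^ 2 := by
        intro c
        simp only [hbb, hb, hIJ]
      rw [Finset.sum_congr rfl (fun c _ => this c), Finset.sum_const, Finset.card_univ,
        nsmul_eq_mul]
    rw [e1, ← Finset.sum_fiberwise (s := (Finset.univ : Finset (G × C)))
      (g := fun q => p q.1 q.2), Finset.mul_sum]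
    refine Finset.sum_le_sum (fun w _ => ?_)
    have e2 : ∀ q ∈ Finset.univ.filter (fun q : G × C => p q.1 q.2 = w),
        bb (p q.1 q.2) = bb w := by
      intro q hq
      rw [Finset.mem_filter] at hq
      rw [hq.2]
    rw [Finset.sum_congr rfl e2, Finset.sum_const, nsmul_eq_mul]
    refine mul_le_mul_of_nonneg_right ?_ (by simp only [hbb]; positivity)
    exact_mod_cast hfib w
  have h5 := sq_sum_inner ρ A I α β hcount x hx hx0
  have h5' : ∑ w : W, bb w = α * (Fintype.card G * Fintype.card A) * ‖x‖ ^ 2 := h5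
  rw [h5'] at h4
  have h6 : ((N : ℝ) * ‖⟪x, y⟫_ℂ‖) ^ 2 ≤ (∑ h : G, ‖b h‖) ^ 2 * ‖y‖ ^ 2 := by
    rw [← mul_pow]
    exact pow_le_pow_left₀ (by positivity) h2 2
  have hs0 : 0 ≤ ∑ h : G, ‖b h‖ ^ 2 := by positivity
  calc (N : ℝ) ^ 2 * Fintype.card C * ‖⟪x, y⟫_ℂ‖ ^ 2
      = ((N : ℝ) * ‖⟪x, y⟫_ℂ‖) ^ 2 * Fintype.card C := by ring
    _ ≤ ((∑ h : G, ‖b h‖) ^ 2 * ‖y‖ ^ 2) * Fintype.card C :=
        mul_le_mul_of_nonneg_right h6 (by positivity)
    _ ≤ ((Fintype.card G * ∑ h : G, ‖b h‖ ^ 2) * ‖y‖ ^ 2) * Fintype.card C := by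
        gcongr
    _ = Fintype.card G * ‖y‖ ^ 2 * (Fintype.card C * ∑ h : G, ‖b h‖ ^ 2) := by ring
    _ ≤ Fintype.card G * ‖y‖ ^ 2 *
        (Fintype.card B * (α * (Fintype.card G * Fintype.card A) * ‖x‖ ^ 2)) := by
        gcongr
    _ = _ := by ring

end Pool.Y52.PT
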