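import Pool.Agent.Y52.PT.AngleS

/-! # The angle condition for the unitary group over the field with sixteen elements, II -/

set_option autoImplicit false

namespace Pool.Y52.PT

open Matrix Finset
open scoped Classical InnerProductSpace

variable {k : Type} [Field k] [Fintype k] [CharP k 2] (τ : k →+* k)

theorem count_I (hk : Fintype.card k = 16) (hτ4 : ∀ x, τ x = x ^ 4) (g g' : Sgrp τ) :
    (Finset.univ.filter (fun w : Fin 3 → k => form τ (g.1.1 *ᵥ ee 0) w = 0 ∧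
      form τ (g'.1.1 *ᵥ ee 0) w = 0)).card = 16 + if g⁻¹ * g' ∈ stA τ 0 then 240 else 0 := by
  have hτ := tau_invol τ hk hτ4
  have hv : g.1.1 *ᵥ (ee 0 : Fin 3 → k) ≠ 0 := mulVec_ne_zero g.1 _ (ee_ne_zero 0)
  have hgg : ∀ v : Fin 3 → k, (g⁻¹ * g').1.1 *ᵥ v = (g.1⁻¹).1 *ᵥ (g'.1.1 *ᵥ v) := by
    intro v
    have e : (g⁻¹ * g').1 = g.1⁻¹ * g'.1 := rfl
    rw [e, mul_mulVec]
  split_ifs with h
  · obtain ⟨c, hc, hcc⟩ := (mem_stA τ 0 _).mp h
    rw [hgg] at hcc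
    have h1 : g'.1.1 *ᵥ (ee 0 : Fin 3 → k) = c • (g.1.1 *ᵥ ee 0) := by
      rw [← mulVec_inv_cancel g.1 (g'.1.1 *ᵥ ee 0), hcc, Matrix.mulVec_smul]
    rw [show 16 + 240 = 256 by norm_num, ← card_perp_one hk τ hτ _ hv]
    congr 1
    ext w
    simp only [Finset.mem_filter, Finset.mem_univ, true_and, h1, form_smul_left]
    constructor
    · exact fun h => h.1
    · exact fun h => ⟨h, by rw [h, mul_zero]⟩
  · rw [add_zero, ← card_perp_two hk τ hτ (g.1.1 *ᵥ ee 0) (g'.1.1 *ᵥ ee 0) hv]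
    intro c hc
    apply h
    rw [mem_stA]
    refine ⟨c, ?_, ?_⟩
    · rintro rfl
      rw [zero_smul] at hc
      exact mulVec_ne_zero g'.1 _ (ee_ne_zero 0) hc.symm
    · rw [hgg, ← hc, Matrix.mulVec_smul, inv_mulVec_cancel]

theorem fib_le (w : Fin 3 → k) [Fintype (Sgrp τ)] :
    (Finset.univ.filter (fun q : (Sgrp τ) × kˣ => (q.2 : k) • (q.1.1.1 *ᵥ ee 2) = w)).card ≤
      Fintype.card (stA τ 2) := by
  set F := Finset.univ.filter (fun q : (Sgrp τ) × kˣ => (q.2 : k) • (q.1.1.1 *ᵥ ee 2) = w)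
    with hF
  rcases F.eq_empty_or_nonempty with h | ⟨q0, hq0⟩
  · rw [h, Finset.card_empty]; exact Nat.zero_le _
  · have hcard : Fintype.card (stA τ 2) =
        (Finset.univ.filter (fun g : Sgrp τ => g ∈ stA τ 2)).card := by
      rw [Fintype.card_subtype]
    rw [hcard]
    rw [hF, Finset.mem_filter] at hq0
    refine Finset.card_le_card_of_injOn (fun q => q0.1⁻¹ * q.1) ?_ ?_
    · intro q hq
      rw [Finset.mem_coe, hF, Finset.mem_filter] at hq
      rw [Finset.mem_coe, Finset.mem_filter]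
      refine ⟨Finset.mem_univ _, ?_⟩
      rw [mem_stA]
      refine ⟨(q.2 : k)⁻¹ * q0.2, mul_ne_zero (inv_ne_zero q.2.ne_zero) q0.2.ne_zero, ?_⟩
      have e : (q0.1⁻¹ * q.1).1 = q0.1.1⁻¹ * q.1.1 := rfl
      rw [e, mul_mulVec]
      have e2 : q.1.1.1 *ᵥ (ee 2 : Fin 3 → k) =
          ((q.2 : k)⁻¹ * q0.2) • (q0.1.1.1 *ᵥ ee 2) := by
        rw [mul_smul, hq0.2, ← hq.2, smul_smul, inv_mul_cancel₀ q.2.ne_zero, one_smul]
      rw [e2, Matrix.mulVec_smul, inv_mulVec_cancel]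
    · intro q hq q' hq' hqq
      rw [Finset.mem_coe, hF, Finset.mem_filter] at hq hq'
      have e1 : q.1 = q'.1 := mul_left_cancel hqq
      have e2 : (q.2 : k) • (q.1.1.1 *ᵥ ee 2) = (q'.2 : k) • (q.1.1.1 *ᵥ (ee 2 : Fin 3 → k)) := by
        rw [hq.2, e1, hq'.2]
      have hne : q.1.1.1 *ᵥ (ee 2 : Fin 3 → k) ≠ 0 := mulVec_ne_zero _ _ (ee_ne_zero 2)
      have e3 : (q.2 : k) = q'.2 := by
        obtain ⟨i, hi⟩ := Function.ne_iff.mp hne
        have := congrFun e2 i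
        simp only [Pi.smul_apply, smul_eq_mul] at this
        exact mul_right_cancel₀ hi this
      exact Prod.ext e1 (Units.ext e3)

theorem nis_card (hk : Fintype.card k = 16) :
    176 ≤ (Finset.univ.filter (fun w : Fin 3 → k => w 0 = 0 ∧ w 1 ^ 5 + w 2 ^ 5 ≠ 0)).card := by
  refine (card_isotropic hk).trans ?_
  refine Finset.card_le_card_of_injOn (fun p => ![0, p.1, p.2]) ?_ ?_
  · intro p hp
    rw [Finset.mem_coe, Finset.mem_filter] at hp
    rw [Finset.mem_coe, Finset.mem_filter]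
    exact ⟨Finset.mem_univ _, rfl, hp.2⟩
  · intro p _ p' _ h
    have h1 := congrFun h 1
    have h2 := congrFun h 2
    exact Prod.ext h1 h2

theorem card_units16 (hk : Fintype.card k = 16) : Fintype.card kˣ = 15 := by
  rw [Fintype.card_units, hk]

theorem J_card (hk : Fintype.card k = 16) (hτ4 : ∀ x, τ x = x ^ 4) [Fintype (Sgrp τ)]
    (g : Sgrp τ) :
    176 * Fintype.card (stA τ 2) ≤ 15 * (Finset.univ.filter (fun h : Sgrp τ =>
      form τ (g.1.1 *ᵥ ee 0) (h.1.1 *ᵥ ee 2) = 0)).card := by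
  have hτ := tau_invol τ hk hτ4
  have hgU : g.1 ∈ U3 τ := Sgrp_le τ hτ g.2
  set Jg := Finset.univ.filter (fun h : Sgrp τ =>
      form τ (g.1.1 *ᵥ ee 0) (h.1.1 *ᵥ ee 2) = 0) with hJg
  set T := Jg ×ˢ (Finset.univ : Finset kˣ) with hT
  have hTc : T.card = 15 * Jg.card := by
    rw [hT, Finset.card_product, Finset.card_univ, card_units16 hk, mul_comm]
  set N := Finset.univ.filter (fun w : Fin 3 → k => w 0 = 0 ∧ w 1 ^ 5 + w 2 ^ 5 ≠ 0) with hN
  set π : (Sgrp τ) × kˣ → (Fin 3 → k) := fun q => (q.2 : k) • ((g⁻¹ * q.1).1.1 *ᵥ ee 2) with hπ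
  have h1 : ∀ w ∈ N, Fintype.card (stA τ 2) ≤ (T.filter (fun q => π q = w)).card := by
    intro w hw
    rw [hN, Finset.mem_filter] at hw
    obtain ⟨a, haS, hafix, c, hc, hac⟩ := trans_fix τ hk hτ4 w hw.2.1 hw.2.2
    have hcard : Fintype.card (stA τ 2) =
        (Finset.univ.filter (fun g : Sgrp τ => g ∈ stA τ 2)).card := by
      rw [Fintype.card_subtype]
    rw [hcard]
    refine le_trans (Finset.card_le_card ?_)
      (Finset.card_image_le (s := T.filter (fun q => π q = w))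
        (f := fun q => (g * ⟨a, haS⟩ : Sgrp τ)⁻¹ * q.1))
    intro b hb
    rw [Finset.mem_filter] at hb
    obtain ⟨l, hl, hbl⟩ := (mem_stA τ 2 b).mp hb.2
    rw [Finset.mem_image]
    refine ⟨(g * ⟨a, haS⟩ * b, Units.mk0 (l * c)⁻¹ (inv_ne_zero (mul_ne_zero hl hc))), ?_,
      by group⟩
    rw [Finset.mem_filter, hT, Finset.mem_product, hJg, Finset.mem_filter]
    have e0 : (a * b.1).1 *ᵥ (ee 2 : Fin 3 → k) = (l * c) • w := by
      rw [mul_mulVec, hbl, Matrix.mulVec_smul, hac, smul_smul]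
    refine ⟨⟨⟨Finset.mem_univ _, ?_⟩, Finset.mem_univ _⟩, ?_⟩
    · have e1 : (g * ⟨a, haS⟩ * b : Sgrp τ).1 = g.1 * (a * b.1) := by
        rw [← mul_assoc]; rfl
      simp only [e1]
      rw [mul_mulVec, hgU, e0, form_smul_right, (form_ee0 τ w).mpr hw.2.1, mul_zero]
    · have e1 : (g⁻¹ * (g * ⟨a, haS⟩ * b) : Sgrp τ).1 = a * b.1 := by
        have : (g⁻¹ * (g * ⟨a, haS⟩ * b) : Sgrp τ) = ⟨a, haS⟩ * b := by group
        rw [this]; rfl
      simp only [hπ, e1]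
      rw [e0, Units.val_mk0, smul_smul, inv_mul_cancel₀ (mul_ne_zero hl hc), one_smul]
  have h2 : ∑ w ∈ N, (T.filter (fun q => π q = w)).card ≤ T.card := by
    rw [← Finset.card_biUnion]
    · apply Finset.card_le_card
      intro q hq
      rw [Finset.mem_biUnion] at hq
      obtain ⟨w, _, hq⟩ := hq
      exact (Finset.mem_filter.mp hq).1
    · intro w _ w' _ hww
      rw [Function.onFun, Finset.disjoint_left]
      intro q hq hq'
      apply hww
      rw [← (Finset.mem_filter.mp hq).2, (Finset.mem_filter.mp hq').2]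
  have h3 : N.card * Fintype.card (stA τ 2) ≤ T.card := by
    refine le_trans ?_ h2
    rw [← smul_eq_mul]
    exact Finset.card_nsmul_le_sum _ _ _ h1
  have h4 : 176 ≤ N.card := nis_card hk
  rw [← hTc]
  exact (Nat.mul_le_mul_right _ h4).trans h3

/-- conjugation by the cyclic permutation takes the stabiliser of `e₀` to that of `e₂` -/
theorem conj_stA (g : Sgrp τ) :
    g ∈ stA τ 0 ↔ (⟨Emat 1, Emat_one_mem_Sgrp τ⟩ * g * ⟨Emat 1, Emat_one_mem_Sgrp τ⟩⁻¹ : Sgrp τ)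
      ∈ stA τ 2 := by
  have key : ∀ v : Fin 3 → k, (⟨Emat 1, Emat_one_mem_Sgrp τ⟩ * g *
      ⟨Emat 1, Emat_one_mem_Sgrp τ⟩⁻¹ : Sgrp τ).1.1 *ᵥ ((Emat (1 : kˣ)).1 *ᵥ v) =
      (Emat (1 : kˣ)).1 *ᵥ (g.1.1 *ᵥ v) := by
    intro v
    have e : (⟨Emat 1, Emat_one_mem_Sgrp τ⟩ * g * ⟨Emat 1, Emat_one_mem_Sgrp τ⟩⁻¹ : Sgrp τ).1
      = Emat 1 * g.1 * (Emat 1)⁻¹ := rfl
    rw [e, mul_mulVec, inv_mulVec_cancel, mul_mulVec]
  have h0 := Emat_ee0 (K := k) 1
  rw [Units.val_one, one_smul] at h0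
  have k0 := key (ee 0)
  rw [h0] at k0
  constructor
  · intro h
    obtain ⟨c, hc, hcc⟩ := (mem_stA τ 0 g).mp h
    rw [mem_stA]
    refine ⟨c, hc, ?_⟩
    rw [k0, hcc, Matrix.mulVec_smul, h0]
  · intro h
    obtain ⟨c, hc, hcc⟩ := (mem_stA τ 2 _).mp h
    rw [mem_stA]
    refine ⟨c, hc, ?_⟩
    rw [k0] at hcc
    rw [← inv_mulVec_cancel (Emat (1 : kˣ)) (g.1.1 *ᵥ ee 0), hcc, Matrix.mulVec_smul, ← h0,
      inv_mulVec_cancel]

theorem card_stA [Fintype (Sgrp τ)] : Fintype.card (stA τ 0) = Fintype.card (stA τ 2) := by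
  refine Fintype.card_congr ?_
  refine (MulAut.conj (⟨Emat 1, Emat_one_mem_Sgrp τ⟩ : Sgrp τ)).toEquiv.subtypeEquiv ?_
  intro g
  exact conj_stA τ g

theorem angleCond_S (hk : Fintype.card k = 16) (hτ4 : ∀ x, τ x = x ^ 4) :
    AngleCond (Sgrp τ) (stA τ 0) (stA τ 2) (15 / 44) := by
  intro H _ _ _ ρ x y hx hy hx0 hy0
  haveI : Fintype (Sgrp τ) := Fintype.ofFinite _
  have hs := sum_act_eq_zero ρ x hx0
  set N := (Finset.univ.filter (fun q : (Sgrp τ) × (Sgrp τ) =>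
      form τ (q.1.1.1 *ᵥ ee 0) (q.2.1.1 *ᵥ ee 2) = 0)).card with hN
  have main := angle_abstract ρ (stA τ 0) (stA τ 2)
    (fun g w => form τ (g.1.1 *ᵥ ee 0) w = 0)
    (fun g h => form τ (g.1.1 *ᵥ ee 0) (h.1.1 *ᵥ ee 2) = 0)
    (fun (h : Sgrp τ) (c : kˣ) => (c : k) • (h.1.1 *ᵥ ee 2)) 240 16 N
    (fun g g' => count_I τ hk hτ4 g g') (by
      intro g h c
      show form τ (g.1.1 *ᵥ ee 0) ((c : k) • (h.1.1 *ᵥ ee 2)) = 0 ↔
        form τ (g.1.1 *ᵥ ee 0) (h.1.1 *ᵥ ee 2) = 0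
      rw [form_smul_right, mul_eq_zero, or_iff_right]
      rw [map_eq_zero_iff τ τ.injective]
      exact c.ne_zero) (fun w => by
      convert fib_le τ w) (fun g h hgh => pair_trans τ hk hτ4 g h hgh) rfl
    x y hx hy hs
  rw [card_units16 hk, card_stA τ] at main
  set n := Fintype.card (Sgrp τ) with hn
  set b := Fintype.card (stA τ 2) with hb
  have hNn : 176 * b * n ≤ 15 * N := by
    have e1 : N = ∑ g : Sgrp τ, (Finset.univ.filter (fun h : Sgrp τ =>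
        form τ (g.1.1 *ᵥ ee 0) (h.1.1 *ᵥ ee 2) = 0)).card := by
      rw [hN, Finset.card_filter, Fintype.sum_prod_type]
      refine Finset.sum_congr rfl (fun g _ => ?_)
      rw [Finset.card_filter]
    rw [e1, Finset.mul_sum]
    have e2 : 176 * b * n = ∑ _g : Sgrp τ, 176 * b := by
      rw [Finset.sum_const, Finset.card_univ, smul_eq_mul, mul_comm]
    rw [e2]
    exact Finset.sum_le_sum (fun g _ => J_card τ hk hτ4 g)
  have hn0 : (0 : ℝ) < n := by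
    rw [hn]; exact_mod_cast Fintype.card_pos
  have hb0 : (0 : ℝ) < b := by
    rw [hb]; exact_mod_cast Fintype.card_pos
  have hNr : (176 : ℝ) * b * n ≤ 15 * N := by exact_mod_cast hNn
  set t := ‖⟪x, y⟫_ℂ‖ with ht
  set m := ‖x‖ * ‖y‖ with hm
  have ht0 : 0 ≤ t := norm_nonneg _
  have hm0 : 0 ≤ m := by positivity
  push_cast at main
  -- main : N^2 * 15 * t^2 ≤ b * (240 * (n * b)) * n * m^2
  have h1 : ((176 : ℝ) * b * n) ^ 2 * t ^ 2 ≤ (15 * N) ^ 2 * t ^ 2 :=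
    mul_le_mul_of_nonneg_right (pow_le_pow_left₀ (by positivity) hNr 2) (by positivity)
  have h2 : ((15 : ℝ) * N) ^ 2 * t ^ 2 ≤ 15 * (b * (240 * (n * b)) * n * m ^ 2) := by
    nlinarith [main]
  have h3 : (b * n : ℝ) ^ 2 * (176 * t) ^ 2 ≤ (b * n : ℝ) ^ 2 * (60 * m) ^ 2 := by
    calc (b * n : ℝ) ^ 2 * (176 * t) ^ 2 = ((176 : ℝ) * b * n) ^ 2 * t ^ 2 := by ring
      _ ≤ 15 * (b * (240 * (n * b)) * n * m ^ 2) := h1.trans h2
      _ = (b * n : ℝ) ^ 2 * (60 * m) ^ 2 := by ring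
  have h4 : (176 * t) ^ 2 ≤ (60 * m) ^ 2 := le_of_mul_le_mul_left h3 (by positivity)
  have h5 : 176 * t ≤ 60 * m := by
    rwa [sq_le_sq₀ (by positivity) (by positivity)] at h4
  linarith

end Pool.Y52.PT
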