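import Pool.Agent.Y52.PT.F16
import Pool.Agent.Y52.PT.Angle

/-! # The angle condition for the unitary group over the field with sixteen elements -/

set_option autoImplicit false

namespace Pool.Y52.PT

open Matrix Finset

section gen
variable {K : Type*} [Field K]

/-- the `i`-th standard vector -/
def ee (i : Fin 3) : Fin 3 → K := Pi.single i 1

theorem ee_apply (i j : Fin 3) : (ee i : Fin 3 → K) j = if j = i then 1 else 0 := by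
  simp [ee, Pi.single_apply]

/-- stabiliser of a point -/
def fixPt (v : Fin 3 → K) : Subgroup (GL (Fin 3) K) where
  carrier := {g | ∃ c : K, c ≠ 0 ∧ g.1 *ᵥ v = c • v}
  mul_mem' := by
    rintro a b ⟨c, hc, ha⟩ ⟨d, hd, hb⟩
    refine ⟨c * d, mul_ne_zero hc hd, ?_⟩
    rw [Units.val_mul, ← Matrix.mulVec_mulVec, hb, Matrix.mulVec_smul, ha, smul_smul, mul_comm]
  one_mem' := ⟨1, one_ne_zero, by rw [Units.val_one, Matrix.one_mulVec, one_smul]⟩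
  inv_mem' := by
    rintro a ⟨c, hc, ha⟩
    refine ⟨c⁻¹, inv_ne_zero hc, ?_⟩
    have h1 : (a⁻¹).1 *ᵥ (a.1 *ᵥ v) = v := by
      rw [Matrix.mulVec_mulVec, ← Units.val_mul, inv_mul_cancel, Units.val_one,
        Matrix.one_mulVec]
    rw [ha, Matrix.mulVec_smul] at h1
    calc (a⁻¹).1 *ᵥ v = c⁻¹ • (c • ((a⁻¹).1 *ᵥ v)) := by
          rw [smul_smul, inv_mul_cancel₀ hc, one_smul]
      _ = c⁻¹ • v := by rw [h1]

theorem mem_fixPt (v : Fin 3 → K) (g : GL (Fin 3) K) :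
    g ∈ fixPt v ↔ ∃ c : K, c ≠ 0 ∧ g.1 *ᵥ v = c • v := Iff.rfl

theorem inv_mulVec_cancel (g : GL (Fin 3) K) (v : Fin 3 → K) :
    (g⁻¹).1 *ᵥ (g.1 *ᵥ v) = v := by
  rw [Matrix.mulVec_mulVec, ← Units.val_mul, inv_mul_cancel, Units.val_one, Matrix.one_mulVec]

theorem mulVec_inv_cancel (g : GL (Fin 3) K) (v : Fin 3 → K) :
    g.1 *ᵥ ((g⁻¹).1 *ᵥ v) = v := by
  rw [Matrix.mulVec_mulVec, ← Units.val_mul, mul_inv_cancel, Units.val_one, Matrix.one_mulVec]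

theorem mul_mulVec (g h : GL (Fin 3) K) (v : Fin 3 → K) :
    (g * h).1 *ᵥ v = g.1 *ᵥ (h.1 *ᵥ v) := by
  rw [Units.val_mul, Matrix.mulVec_mulVec]

theorem mulVec_ne_zero (g : GL (Fin 3) K) (v : Fin 3 → K) (hv : v ≠ 0) : g.1 *ᵥ v ≠ 0 := by
  intro h
  apply hv
  rw [← inv_mulVec_cancel g v, h, Matrix.mulVec_zero]

theorem ee_ne_zero (i : Fin 3) : (ee i : Fin 3 → K) ≠ 0 := by
  intro h
  have := congrFun h i
  simp [ee] at this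

theorem Emat_inv_val (s : Kˣ) :
    ((Emat s)⁻¹).1 = !![0, 0, ((s⁻¹ : Kˣ) : K); 1, 0, 0; 0, 1, 0] := rfl

theorem Dmat_inv_val (a b c : Kˣ) : ((Dmat a b c)⁻¹).1 =
    !![((a⁻¹ : Kˣ) : K), 0, 0; 0, ((b⁻¹ : Kˣ) : K), 0; 0, 0, ((c⁻¹ : Kˣ) : K)] := rfl

theorem Emat_ee0 (s : Kˣ) : (Emat s).1 *ᵥ ee 0 = (s : K) • ee 2 := by
  ext i; fin_cases i <;> simp [mulVec3, Emat, ee]

theorem Emat_ee1 (s : Kˣ) : (Emat s).1 *ᵥ ee 1 = ee 0 := by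
  ext i; fin_cases i <;> simp [mulVec3, Emat, ee]

theorem Emat_ee2 (s : Kˣ) : (Emat s).1 *ᵥ ee 2 = ee 1 := by
  ext i; fin_cases i <;> simp [mulVec3, Emat, ee]

end gen

variable {k : Type} [Field k] [Fintype k] [DecidableEq k] [CharP k 2] (τ : k →+* k)

theorem tau_invol (hk : Fintype.card k = 16) (hτ4 : ∀ x, τ x = x ^ 4) (x : k) :
    τ (τ x) = x := by
  rw [hτ4, hτ4, ← pow_mul]
  exact pow16 hk x

/-- transitivity of the stabiliser of `e₀` on the nonisotropic points orthogonal to `e₀` -/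
theorem trans_fix (hk : Fintype.card k = 16) (hτ4 : ∀ x, τ x = x ^ 4) (w : Fin 3 → k)
    (hw0 : w 0 = 0) (hw : w 1 ^ 5 + w 2 ^ 5 ≠ 0) :
    ∃ a ∈ Sgrp τ, a ∈ fixPt (ee 0 : Fin 3 → k) ∧ ∃ c : k, c ≠ 0 ∧ a.1 *ᵥ ee 2 = c • w := by
  obtain ⟨c, η, z, hc, hη, hz, h1, h2⟩ := scale_exists hk (w 1) (w 2) hw
  have hη0 : η ≠ 0 := by
    rintro rfl
    rw [zero_pow (by norm_num)] at hη
    exact zero_ne_one hη
  set ηu : kˣ := Units.mk0 η hη0 with hηu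
  set g : GL (Fin 3) k := Dmat 1 ηu 1 * (Emat 1)⁻¹ with hg
  have hgU : g ∈ U3 τ := by
    refine (U3 τ).mul_mem (Dmat_mem τ 1 ηu 1 (by simp) ?_ (by simp))
      ((U3 τ).inv_mem (Emat_one_mem_U3 τ))
    rw [hηu, Units.val_mk0, hτ4, ← hη]; ring
  have hzz : z + τ z = 0 * τ 0 := by
    rw [hτ4, hz, zero_mul]
    exact CharTwo.add_self_eq_zero z
  refine ⟨g * umat τ 0 z * g⁻¹, conj_umat_mem_Sgrp τ g hgU 0 z hzz, ⟨1, one_ne_zero, ?_⟩,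
    c, hc, ?_⟩
  · rw [hg, _root_.mul_inv_rev, inv_inv]
    simp only [mul_mulVec]
    ext i
    simp only [mulVec3, ee_apply, Emat_inv_val, Dmat_inv_val, umat_val, Pi.smul_apply]
    fin_cases i <;> simp [Emat, Dmat]
  · rw [hg, _root_.mul_inv_rev, inv_inv]
    simp only [mul_mulVec]
    ext i
    simp only [mulVec3, ee_apply, Emat_inv_val, Dmat_inv_val, umat_val, Pi.smul_apply]
    fin_cases i
    · simp [Emat, Dmat, hw0]
    · simp [Emat, Dmat, hηu, h1]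
    · simp [Emat, Dmat, h2]

/-- stabiliser of the point `e_i` in `S` -/
def stA (i : Fin 3) : Subgroup (Sgrp τ) := (fixPt (ee i : Fin 3 → k)).subgroupOf (Sgrp τ)

theorem mem_stA (i : Fin 3) (g : Sgrp τ) :
    g ∈ stA τ i ↔ ∃ c : k, c ≠ 0 ∧ g.1.1 *ᵥ (ee i : Fin 3 → k) = c • ee i := Iff.rfl

theorem form_ee0 (w : Fin 3 → k) : form τ (ee 0) w = 0 ↔ w 0 = 0 := by
  simp [form, ee]

theorem form_self (hτ4 : ∀ x, τ x = x ^ 4) (w : Fin 3 → k) :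
    form τ w w = w 0 ^ 5 + w 1 ^ 5 + w 2 ^ 5 := by
  simp only [form, hτ4]; ring

theorem form_ee2_self : form τ (ee 2) (ee 2) = (1 : k) := by
  simp [form, ee]

theorem pair_trans (hk : Fintype.card k = 16) (hτ4 : ∀ x, τ x = x ^ 4) (g h : Sgrp τ)
    (hgh : form τ (g.1.1 *ᵥ ee 0) (h.1.1 *ᵥ ee 2) = 0) :
    ∃ a ∈ stA τ 0, ∃ b ∈ stA τ 2, g⁻¹ * h = a * b := by
  have hτ := tau_invol τ hk hτ4
  have hgU : g.1 ∈ U3 τ := Sgrp_le τ hτ g.2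
  set q : GL (Fin 3) k := g.1⁻¹ * h.1 with hq
  have hqU : q ∈ U3 τ := (U3 τ).mul_mem ((U3 τ).inv_mem hgU) (Sgrp_le τ hτ h.2)
  set w := q.1 *ᵥ ee 2 with hw
  have hgw : g.1.1 *ᵥ w = h.1.1 *ᵥ ee 2 := by
    rw [hw, hq, mul_mulVec, mulVec_inv_cancel]
  have hw0 : w 0 = 0 := by
    rw [← form_ee0 τ, ← hgU, hgw, hgh]
  have hww : form τ w w = 1 := by
    rw [hw, hqU, form_ee2_self]
  have hw5 : w 1 ^ 5 + w 2 ^ 5 ≠ 0 := by
    rw [form_self τ hτ4, hw0, zero_pow (by norm_num), zero_add] at hww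
    rw [hww]; exact one_ne_zero
  obtain ⟨a, haS, hafix, c, hc, hac⟩ := trans_fix τ hk hτ4 w hw0 hw5
  refine ⟨⟨a, haS⟩, hafix, (⟨a, haS⟩ : Sgrp τ)⁻¹ * (g⁻¹ * h), ?_, by group⟩
  rw [mem_stA]
  refine ⟨c⁻¹, inv_ne_zero hc, ?_⟩
  have e1 : ((⟨a, haS⟩ : Sgrp τ)⁻¹ * (g⁻¹ * h)).1 = a⁻¹ * q := rfl
  rw [e1, mul_mulVec, ← hw]
  have e2 : w = c⁻¹ • (a.1 *ᵥ ee 2) := by
    rw [hac, smul_smul, inv_mul_cancel₀ hc, one_smul]
  rw [e2, Matrix.mulVec_smul, inv_mulVec_cancel]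

end Pool.Y52.PT
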