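import Mathlib

/-! # A simplicity criterion for two-transitive groups -/

set_option autoImplicit false

namespace Pool.Y52.PT

theorem simple_criterion {Q X : Type*} [Group Q] (φ : Q →* Equiv.Perm X)
    (hφ : Function.Injective φ)
    (h2t : ∀ a b c d : X, a ≠ b → c ≠ d → ∃ g : Q, φ g a = c ∧ φ g b = d)
    (x0 y0 : X) (hxy : x0 ≠ y0) (U : Subgroup Q) [Group.IsSolvable U]
    (hn : ∀ u ∈ U, ∀ h : Q, φ h x0 = x0 → h * u * h⁻¹ ∈ U)
    (hgen : ∀ P : Subgroup Q, (∀ g : Q, ∀ u ∈ U, g * u * g⁻¹ ∈ P) → P = ⊤)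
    (hperf : commutator Q = ⊤) : IsSimpleGroup Q := by
  haveI : Nontrivial Q := by
    obtain ⟨g, hg, _⟩ := h2t x0 y0 y0 x0 hxy hxy.symm
    refine ⟨g, 1, ?_⟩
    rintro rfl
    rw [map_one, Equiv.Perm.one_apply] at hg
    exact hxy hg
  refine ⟨fun N hN => ?_⟩
  by_cases hb : N = ⊥
  · exact Or.inl hb
  right
  -- `N` is transitive
  obtain ⟨n, hnN, hn1⟩ : ∃ n ∈ N, n ≠ 1 := by
    by_contra hcon
    push Not at hcon
    apply hb
    rw [eq_bot_iff]
    intro n hnN
    rw [Subgroup.mem_bot]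
    exact hcon n hnN
  obtain ⟨a, ha⟩ : ∃ a, φ n a ≠ a := by
    by_contra hcon
    push Not at hcon
    apply hn1
    apply hφ
    rw [map_one]
    ext1 a
    exact hcon a
  have htrans : ∀ y : X, ∃ m ∈ N, φ m x0 = y := by
    intro y
    by_cases hy : y = x0
    · exact ⟨1, N.one_mem, by rw [map_one, hy]; rfl⟩
    · obtain ⟨g, hg1, hg2⟩ := h2t a (φ n a) x0 y (Ne.symm ha) (Ne.symm hy)
      refine ⟨g * n * g⁻¹, hN.conj_mem n hnN g, ?_⟩
      rw [map_mul, map_mul, Equiv.Perm.mul_apply, Equiv.Perm.mul_apply, ← hg2]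
      congr 2
      rw [← hg1, ← Equiv.Perm.mul_apply, ← map_mul, inv_mul_cancel, map_one,
        Equiv.Perm.one_apply]
  -- `Q = N U`
  have hNU : N ⊔ U = ⊤ := by
    apply hgen
    intro g u hu
    obtain ⟨m, hm, hmg⟩ := htrans (φ g x0)
    have h1 : φ (m⁻¹ * g) x0 = x0 := by
      rw [map_mul, Equiv.Perm.mul_apply, ← hmg, ← Equiv.Perm.mul_apply, ← map_mul,
        inv_mul_cancel, map_one, Equiv.Perm.one_apply]
    have h2 := hn u hu _ h1
    have h3 : g * u * g⁻¹ = m * ((m⁻¹ * g) * u * (m⁻¹ * g)⁻¹) * m⁻¹ := by group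
    rw [h3]
    have hmN : m ∈ N ⊔ U := Subgroup.mem_sup_left hm
    exact (N ⊔ U).mul_mem ((N ⊔ U).mul_mem hmN (Subgroup.mem_sup_right h2))
      ((N ⊔ U).inv_mem hmN)
  -- the quotient is solvable and perfect
  have hsurj : Function.Surjective ((QuotientGroup.mk' N).comp U.subtype) := by
    rw [← MonoidHom.range_eq_top, MonoidHom.range_comp, Subgroup.range_subtype]
    have h1 : (N ⊔ U).map (QuotientGroup.mk' N) = ⊤ := by
      rw [hNU, ← MonoidHom.range_eq_map, MonoidHom.range_eq_top]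
      exact QuotientGroup.mk'_surjective N
    rw [Subgroup.map_sup, QuotientGroup.map_mk'_self, bot_sup_eq] at h1
    exact h1
  haveI hsol : Group.IsSolvable (Q ⧸ N) := Group.isSolvable_of_surjective hsurj
  have hperf2 : commutator (Q ⧸ N) = ⊤ := by
    have h1 : (commutator Q).map (QuotientGroup.mk' N) = commutator (Q ⧸ N) := by
      rw [commutator_def, commutator_def, Subgroup.map_commutator, ← MonoidHom.range_eq_map,
        MonoidHom.range_eq_top.mpr (QuotientGroup.mk'_surjective N)]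
    rw [← h1, hperf, ← MonoidHom.range_eq_map, MonoidHom.range_eq_top]
    exact QuotientGroup.mk'_surjective N
  have hsub : Subsingleton (Q ⧸ N) := by
    by_contra hns
    rw [not_subsingleton_iff_nontrivial] at hns
    have := Group.IsSolvable.commutator_lt_top_of_nontrivial (Q ⧸ N)
    rw [hperf2] at this
    exact lt_irrefl _ this
  exact QuotientGroup.subsingleton_iff.mp hsub

end Pool.Y52.PT
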