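import Pool.Agent.Y52.PT.Onto

/-! # The quotients of `Γ` -/

set_option autoImplicit false

namespace Pool.Y52.PT

open Matrix
open Matrix.GeneralLinearGroup
open scoped commutatorElement

section data

variable {k : Type} [Field k] [Fintype k] [CharP k 2] (τ : k →+* k) (hτ : ∀ x, τ (τ x) = x)
variable {R : Type} [CommRing R] (ι : k →+* R) (s : Rˣ)
variable {K : Type} [Field K] [CharP K 2] (τ' : K →+* K) (hτ' : ∀ x, τ' (τ' x) = x)
variable (j : k →+* K) (hj : ∀ c, τ' (j c) = j (τ c))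
variable (ev : R →+* K) (hev : ∀ c, ev (ι c) = j c)
variable (ζ : Kˣ) (hζ : (ζ : K) = ev s) (hζ1 : (ζ : K) * τ' ζ = 1)

include hτ' in
theorem data1 (bk : k) (hbk : bk + τ bk = 1)
    (hadj : ∀ x : K, ∃ p : Polynomial k, x = Polynomial.eval₂ j ((ζ⁻¹ : Kˣ) : K) p)
    (x z : K) (hz : z + τ' z = x * τ' x) :
    ∃ γ, (evh τ ι s τ' j hj ev hev ζ hζ hζ1 hτ γ).1 = umat τ' x z := by
  obtain ⟨γ, hγ, h⟩ := (mem_Img τ ι s ev _).mp
    (umat_all_mem τ ι s τ' hτ' j hj ev hev ζ hζ hζ1 bk hbk hτ hadj x z hz)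
  exact ⟨⟨γ, hγ⟩, h⟩

theorem data2 : ∃ γ, (evh τ ι s τ' j hj ev hev ζ hζ hζ1 hτ γ).1 = Emat 1 := by
  refine ⟨⟨Emat 1, Emat_one_mem_Gam τ ι s⟩, ?_⟩
  rw [evh_val]
  ext a b
  have hm : (Matrix.GeneralLinearGroup.map ev (Emat (1 : Rˣ))) a b =
    ev ((Emat (1 : Rˣ)).1 a b) := rfl
  show (Matrix.GeneralLinearGroup.map ev (Emat (1 : Rˣ))) a b = _
  rw [hm]
  fin_cases a <;> fin_cases b <;> simp [Emat]

theorem data3 (P : Subgroup (Gam τ ι s)) (hP : ∀ γ, (∃ g ∈ U3 τ', ∃ x z, z + τ' z = x * τ' x ∧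
    (evh τ ι s τ' j hj ev hev ζ hζ hζ1 hτ γ).1 = g * umat τ' x z * g⁻¹) → γ ∈ P) (γ : Gam τ ι s) :
    γ ∈ P := by
  have hle : Gam τ ι s ≤ P.map (Gam τ ι s).subtype := by
    conv_lhs => rw [Gam]
    rw [Subgroup.closure_le]
    rintro _ ⟨n, g, hg, rfl⟩
    have hle2 : Sgrp τ ≤ (P.map (Gam τ ι s).subtype).comap (tw ι s n.1) := by
      conv_lhs => rw [Sgrp]
      rw [Subgroup.closure_le]
      rintro _ ⟨g', hg', x, z, hz, rfl⟩
      have hmem : tw ι s n.1 (g' * umat τ x z * g'⁻¹) ∈ Gam τ ι s :=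
        tw_mem τ ι s n.1 _ (conj_umat_mem_Sgrp τ g' hg' x z hz)
      refine ⟨⟨_, hmem⟩, ?_, rfl⟩
      apply hP
      have hE : Emat ζ ^ n.1 ∈ U3 τ' := (U3 τ').pow_mem (Emat_mem τ' ζ hζ1) _
      refine ⟨Emat ζ ^ n.1 * Matrix.GeneralLinearGroup.map j g', (U3 τ').mul_mem hE
        (map_mem_U3 τ τ' j hj g' hg'), j x, j z, ?_, ?_⟩
      · rw [hj, hj, ← map_add, hz, map_mul]
      · rw [evh_val]
        show Matrix.GeneralLinearGroup.map ev (tw ι s n.1 (g' * umat τ x z * g'⁻¹)) = _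
        rw [map_tw ι s j ev hev ζ hζ, map_mul, map_mul, map_inv]
        have hu : Matrix.GeneralLinearGroup.map j (umat τ x z) = umat τ' (j x) (j z) := by
          ext a b
          have hm : (Matrix.GeneralLinearGroup.map j (umat τ x z)) a b =
            j ((umat τ x z).1 a b) := rfl
          rw [hm, umat_val, umat_val]
          fin_cases a <;> fin_cases b <;> simp [hj]
        rw [hu]
        group
    exact hle2 hg
  obtain ⟨γ', hγ', h⟩ := hle γ.2
  have : γ' = γ := Subtype.ext h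
  rwa [← this]

theorem data4 (hζ3 : (ζ : K) ^ 3 ≠ 1) : ∃ γ, ∃ μ : K, μ ≠ 1 ∧ ∀ x z : K,
    (evh τ ι s τ' j hj ev hev ζ hζ hζ1 hτ γ).1 * umat τ' x z *
      (evh τ ι s τ' j hj ev hev ζ hζ hζ1 hτ γ).1⁻¹ = umat τ' (μ * x) z := by
  refine ⟨⟨Dmat s⁻¹ s⁻¹ (s * s), diag_mem τ ι s⟩, ((ζ⁻¹ : Kˣ) * ((ζ * ζ)⁻¹ : Kˣ) : K), ?_, ?_⟩
  · intro h
    apply hζ3
    have h1 : ((ζ⁻¹ : Kˣ) * ((ζ * ζ)⁻¹ : Kˣ) : K) * (ζ : K) ^ 3 = 1 := by
      simp
      field_simp
    rwa [h, one_mul] at h1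
  · intro x z
    have e : (evh τ ι s τ' j hj ev hev ζ hζ hζ1 hτ ⟨Dmat s⁻¹ s⁻¹ (s * s), diag_mem τ ι s⟩).1 =
        Dmat ζ⁻¹ ζ⁻¹ (ζ * ζ) := by
      rw [evh_val]
      have hinv : ev ((s⁻¹ : Rˣ) : R) = ((ζ⁻¹ : Kˣ) : K) := by
        have h1 : ev ((s⁻¹ : Rˣ) : R) * (ζ : K) = 1 := by
          rw [hζ, ← map_mul, Units.inv_mul, map_one]
        rw [Units.val_inv_eq_inv_val]
        exact eq_inv_of_mul_eq_one_left h1
      ext a b
      have hm : (Matrix.GeneralLinearGroup.map ev (Dmat s⁻¹ s⁻¹ (s * s))) a b =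
        ev ((Dmat s⁻¹ s⁻¹ (s * s)).1 a b) := rfl
      rw [hm]
      fin_cases a <;> fin_cases b <;> simp [Dmat, hinv, hζ]
    rw [e]
    have hζ2 : ((ζ⁻¹ : Kˣ) : K) * τ' ((ζ⁻¹ : Kˣ) : K) = 1 := by
      rw [Units.val_inv_eq_inv_val, map_inv₀, ← mul_inv, hζ1, inv_one]
    refine Dconj τ' ζ⁻¹ (ζ * ζ) hζ2 ?_ x z
    rw [Units.val_mul, map_mul]
    linear_combination ((ζ : K) * τ' ζ + 1) * hζ1

end data

/-! ### the base field -/

/-- the field with sixteen elements -/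
abbrev kk : Type := GaloisField 2 4

noncomputable instance : Fintype kk := Fintype.ofFinite kk

theorem card_kk : Fintype.card kk = 16 := by
  rw [← Nat.card_eq_fintype_card, GaloisField.card 2 4 (by norm_num)]
  norm_num

/-- the involution of the base field -/
noncomputable def tk : kk →+* kk := iterateFrobenius kk 2 2

theorem tk_apply (x : kk) : tk x = x ^ 4 := by
  rw [tk, iterateFrobenius_def]; norm_num

theorem tk_invol (x : kk) : tk (tk x) = x := by
  classical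
  exact tau_invol tk card_kk tk_apply x

theorem exists_bk : ∃ b : kk, b + tk b = 1 := by
  classical
  -- there is an element with `x ^ 4 ≠ x`
  obtain ⟨b, hb⟩ : ∃ b : kk, b + b ^ 4 ≠ 0 := by
    by_contra hcon
    push Not at hcon
    have h1 : (Finset.univ : Finset kk) ⊆
        (Polynomial.X ^ 4 - Polynomial.X : Polynomial kk).roots.toFinset := by
      intro b _
      rw [Multiset.mem_toFinset, Polynomial.mem_roots']
      refine ⟨?_, ?_⟩
      · intro h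
        have h2 := congrArg (fun p => Polynomial.coeff p 4) h
        simp [Polynomial.coeff_X] at h2
      · have h3 := hcon b
        rw [Polynomial.IsRoot, Polynomial.eval_sub, Polynomial.eval_pow, Polynomial.eval_X]
        have h4 : b ^ 4 = - b := eq_neg_of_add_eq_zero_right h3
        rw [h4, CharTwo.neg_eq, sub_self]
    have h2 := Finset.card_le_card h1
    rw [Finset.card_univ, card_kk] at h2
    have h3 : (Polynomial.X ^ 4 - Polynomial.X : Polynomial kk).natDegree ≤ 4 := by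
      compute_degree
    have h4 := (Multiset.toFinset_card_le
      (Polynomial.X ^ 4 - Polynomial.X : Polynomial kk).roots).trans
      (Polynomial.card_roots' _)
    omega
  set t := b + b ^ 4 with ht
  have ht4 : t ^ 4 = t := by
    have two : (2 : kk) = 0 := two_eq_zero'
    have h16 := pow16 card_kk b
    have : t ^ 4 = b ^ 4 + b ^ 16 := by
      rw [ht]
      linear_combination (2 * b ^ 3 * b ^ 4 + 3 * b ^ 2 * b ^ 8 + 2 * b * b ^ 12) * two
    rw [this, h16, ht, add_comm]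
  refine ⟨b / t, ?_⟩
  rw [tk_apply, div_pow, ht4, ← add_div, ← ht, div_self hb]

end Pool.Y52.PT
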