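import Pool.Agent.Y52.PT.Quot

/-! # Evaluation homomorphisms from `Γ` to unitary groups -/

set_option autoImplicit false

namespace Pool.Y52.PT

open Matrix
open Matrix.GeneralLinearGroup
open scoped commutatorElement

section forms

variable {K : Type*} [Field K] (τ : K →+* K)

theorem vec_eq (x : Fin 3 → K) : x = x 0 • ee 0 + x 1 • ee 1 + x 2 • ee 2 := by
  ext i; fin_cases i <;> simp [ee_apply]

theorem mem_U3_iff (g : GL (Fin 3) K) :
    g ∈ U3 τ ↔ ∀ i j, form τ (g.1 *ᵥ ee i) (g.1 *ᵥ ee j) = form τ (ee i) (ee j) := by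
  constructor
  · intro h i j; exact h _ _
  · intro h x y
    rw [vec_eq x, vec_eq y]
    simp only [Matrix.mulVec_add, Matrix.mulVec_smul, form_add_left, form_add_right,
      form_smul_left, form_smul_right, h]

theorem form_mulVec_ee (g : GL (Fin 3) K) (i j : Fin 3) :
    form τ (g.1 *ᵥ ee i) (g.1 *ᵥ ee j) =
      g.1 0 i * τ (g.1 0 j) + g.1 1 i * τ (g.1 1 j) + g.1 2 i * τ (g.1 2 j) := by
  have : ∀ (a i : Fin 3), (g.1 *ᵥ (ee i : Fin 3 → K)) a = g.1 a i := by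
    intro a i
    rw [mulVec3]
    fin_cases i <;> simp [ee_apply]
  simp only [form, this]

end forms

variable {k : Type} [Field k] [Fintype k] [CharP k 2] (τ : k →+* k)
variable {R : Type} [CommRing R] (ι : k →+* R) (s : Rˣ)
variable {K : Type} [Field K] [CharP K 2] (τ' : K →+* K) (hτ' : ∀ x, τ' (τ' x) = x)
variable (j : k →+* K) (hj : ∀ c, τ' (j c) = j (τ c))

include hj in
theorem map_mem_U3 (g : GL (Fin 3) k) (hg : g ∈ U3 τ) : map j g ∈ U3 τ' := by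
  rw [mem_U3_iff]
  intro a b
  rw [form_mulVec_ee]
  have h1 := (mem_U3_iff τ g).mp hg a b
  rw [form_mulVec_ee] at h1
  have hm : ∀ a b, (map j g).1 a b = j (g.1 a b) := fun _ _ => rfl
  have h2 := congrArg j h1
  rw [map_add, map_add, map_mul, map_mul, map_mul, ← hj, ← hj, ← hj] at h2
  simp only [hm]
  rw [h2]
  simp only [form, ee_apply]
  fin_cases a <;> fin_cases b <;> simp

variable (ev : R →+* K) (hev : ∀ c, ev (ι c) = j c)
variable (ζ : Kˣ) (hζ : (ζ : K) = ev s) (hζ1 : (ζ : K) * τ' ζ = 1)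

include hζ in
theorem map_Emat : map ev (Emat s) = Emat ζ := by
  ext a b
  have hm : (map ev (Emat s)) a b = ev ((Emat s).1 a b) := rfl
  rw [hm]
  fin_cases a <;> fin_cases b <;> simp [Emat, hζ]

include hζ hev in
theorem map_tw (n : ℕ) (g : GL (Fin 3) k) :
    map ev (tw ι s n g) = Emat ζ ^ n * map j g * (Emat ζ ^ n)⁻¹ := by
  rw [tw_apply, map_mul, map_mul, map_inv, map_pow, map_Emat s ev ζ hζ]
  congr 2
  ext a b
  show ev (ι (g.1 a b)) = j (g.1 a b)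
  exact hev _

include hζ hev hζ1 hj in
theorem map_mem_of_Gam (hτ : ∀ x, τ (τ x) = x) (g : GL (Fin 3) R) (hg : g ∈ Gam τ ι s) :
    map ev g ∈ U3 τ' := by
  have hle : Gam τ ι s ≤ (U3 τ').comap (map ev) := by
    rw [Gam, Subgroup.closure_le]
    rintro _ ⟨n, g, hg, rfl⟩
    rw [SetLike.mem_coe, Subgroup.mem_comap, map_tw ι s j ev hev ζ hζ]
    have hE : Emat ζ ^ n.1 ∈ U3 τ' := (U3 τ').pow_mem (Emat_mem τ' ζ hζ1) _
    exact (U3 τ').mul_mem ((U3 τ').mul_mem hE (map_mem_U3 τ τ' j hj g (Sgrp_le τ hτ hg)))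
      ((U3 τ').inv_mem hE)
  exact hle hg

/-- the evaluation homomorphism -/
def evh (hτ : ∀ x, τ (τ x) = x) : Gam τ ι s →* U3 τ' :=
  ((Matrix.GeneralLinearGroup.map ev).comp (Gam τ ι s).subtype).codRestrict (U3 τ')
    (fun g => map_mem_of_Gam τ ι s τ' j hj ev hev ζ hζ hζ1 hτ g.1 g.2)

theorem evh_val (hτ : ∀ x, τ (τ x) = x) (g : Gam τ ι s) :
    (evh τ ι s τ' j hj ev hev ζ hζ hζ1 hτ g).1 = map ev g.1 := rfl

/-! ### structure of `Γ` -/

theorem tw_mem (n : ℕ) (g : GL (Fin 3) k) (hg : g ∈ Sgrp τ) : tw ι s n g ∈ Gam τ ι s := by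
  induction n using Nat.strong_induction_on with
  | _ n ih =>
    by_cases hn : n < 3
    · exact Subgroup.subset_closure ⟨⟨n, hn⟩, g, hg, rfl⟩
    · have h := ih (n - 3) (by omega)
      have h2 := tw_three ι s (n - 3) g
      rw [show n - 3 + 3 = n by omega] at h2
      rw [h2]; exact h

theorem E_normal (g : GL (Fin 3) R) (hg : g ∈ Gam τ ι s) :
    Emat s * g * (Emat s)⁻¹ ∈ Gam τ ι s := by
  have hle : Gam τ ι s ≤ (Gam τ ι s).comap (MulAut.conj (Emat s)).toMonoidHom := by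
    conv_lhs => rw [Gam]
    rw [Subgroup.closure_le]
    rintro _ ⟨n, g, hg, rfl⟩
    rw [SetLike.mem_coe, Subgroup.mem_comap]
    have : (MulAut.conj (Emat s)).toMonoidHom (tw ι s n.1 g) = tw ι s (n.1 + 1) g := by
      show Emat s * (tw ι s n.1 g) * (Emat s)⁻¹ = _
      rw [tw_apply, tw_apply, pow_succ']
      group
    rw [this]
    exact tw_mem τ ι s _ g hg
  exact hle hg

theorem tw_zero (g : GL (Fin 3) k) : tw ι s 0 g = map ι g := by
  rw [tw_apply]; simp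

theorem Emat_one_mem_Gam : Emat (1 : Rˣ) ∈ Gam τ ι s := by
  rw [← map_Emat_one ι, ← tw_zero ι s]
  exact tw_mem τ ι s 0 _ (Emat_one_mem_Sgrp τ)

theorem Dmat_eq : Dmat 1 1 s = Emat s * (Emat 1)⁻¹ := by
  rw [eq_mul_inv_iff_mul_eq]
  ext a b
  fin_cases a <;> fin_cases b <;>
    simp [Emat, Dmat, Matrix.mul_apply, Fin.sum_univ_three]

theorem D_normal (g : GL (Fin 3) R) (hg : g ∈ Gam τ ι s) :
    Dmat 1 1 s * g * (Dmat 1 1 s)⁻¹ ∈ Gam τ ι s := by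
  rw [Dmat_eq s]
  have h1 : (Emat 1)⁻¹ * g * Emat 1 ∈ Gam τ ι s :=
    (Gam τ ι s).mul_mem ((Gam τ ι s).mul_mem ((Gam τ ι s).inv_mem (Emat_one_mem_Gam τ ι s)) hg)
      (Emat_one_mem_Gam τ ι s)
  have h2 := E_normal τ ι s _ h1
  have h3 : Emat s * (Emat 1)⁻¹ * g * (Emat s * (Emat 1)⁻¹)⁻¹ =
      Emat s * ((Emat 1)⁻¹ * g * Emat 1) * (Emat s)⁻¹ := by group
  rw [h3]; exact h2

theorem D_pow_normal (g : GL (Fin 3) R) (hg : g ∈ Gam τ ι s) (m : ℕ) :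
    (Dmat 1 1 s) ^ m * g * ((Dmat 1 1 s) ^ m)⁻¹ ∈ Gam τ ι s := by
  induction m with
  | zero => simpa using hg
  | succ m ih =>
    have h := D_normal τ ι s _ ih
    have e : (Dmat 1 1 s) ^ (m + 1) * g * ((Dmat 1 1 s) ^ (m + 1))⁻¹ =
        Dmat 1 1 s * ((Dmat 1 1 s) ^ m * g * ((Dmat 1 1 s) ^ m)⁻¹) * (Dmat 1 1 s)⁻¹ := by
      rw [pow_succ']; group
    rw [e]; exact h

/-- a diagonal element of `Γ` -/
theorem diag_mem : Dmat s⁻¹ s⁻¹ (s * s) ∈ Gam τ ι s := by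
  have hr := Emat_one_mem_Gam τ ι s
  -- `Dmat 1 s⁻¹ s`
  have h1 : Dmat 1 s⁻¹ s ∈ Gam τ ι s := by
    have h2 := (Gam τ ι s).mul_mem (D_normal τ ι s _ hr) ((Gam τ ι s).inv_mem hr)
    have e : Dmat 1 1 s * Emat 1 * (Dmat 1 1 s)⁻¹ * (Emat 1)⁻¹ = Dmat 1 s⁻¹ s := by
      rw [mul_inv_eq_iff_eq_mul, mul_inv_eq_iff_eq_mul]
      ext a b
      fin_cases a <;> fin_cases b <;>
        simp [Emat, Dmat, Matrix.mul_apply, Fin.sum_univ_three]
    rwa [e] at h2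
  have h3 : Dmat s⁻¹ s 1 ∈ Gam τ ι s := by
    have h4 := (Gam τ ι s).mul_mem ((Gam τ ι s).mul_mem hr h1) ((Gam τ ι s).inv_mem hr)
    have e : Emat 1 * Dmat 1 s⁻¹ s * (Emat 1)⁻¹ = Dmat s⁻¹ s 1 := by
      rw [mul_inv_eq_iff_eq_mul]
      ext a b
      fin_cases a <;> fin_cases b <;>
        simp [Emat, Dmat, Matrix.mul_apply, Fin.sum_univ_three]
    rwa [e] at h4
  have h5 := (Gam τ ι s).mul_mem ((Gam τ ι s).mul_mem h1 h1) h3
  have e : Dmat 1 s⁻¹ s * Dmat 1 s⁻¹ s * Dmat s⁻¹ s 1 = Dmat s⁻¹ s⁻¹ (s * s) := by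
    ext a b
    fin_cases a <;> fin_cases b <;>
      simp [Dmat, Matrix.mul_apply, Fin.sum_univ_three]
  rwa [e] at h5

theorem Dconj (a c : Kˣ) (ha : (a : K) * τ' a = 1) (hc : (c : K) * τ' c = 1) (x z : K) :
    Dmat a a c * umat τ' x z * (Dmat a a c)⁻¹ = umat τ' ((a * (c⁻¹ : Kˣ)) * x) z := by
  have hτa : τ' (a : K) = ((a⁻¹ : Kˣ) : K) := by
    rw [Units.val_inv_eq_inv_val]; exact eq_inv_of_mul_eq_one_right ha
  have hτc : (τ' (c : K))⁻¹ = (c : K) := by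
    rw [eq_comm]; exact eq_inv_of_mul_eq_one_left hc
  rw [mul_inv_eq_iff_eq_mul]
  ext i l
  rw [Units.val_mul, Units.val_mul, umat_val, umat_val]
  have e1 : (c : K) * (c : K)⁻¹ = 1 := mul_inv_cancel₀ c.ne_zero
  have e2 : (a : K) * (a : K)⁻¹ = 1 := mul_inv_cancel₀ a.ne_zero
  fin_cases i <;> fin_cases l <;>
    simp [Dmat, Matrix.mul_apply, Fin.sum_univ_three, map_mul, hτa, mul_comm]
  · field_simp
  · field_simp
  · rw [hτc]; field_simp
  · rw [hτc]; field_simp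

end Pool.Y52.PT
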