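import Pool.Agent.Y52.PT.Herm2

/-! # The field with sixteen elements: counting and transitivity -/

set_option autoImplicit false

namespace Pool.Y52.PT

open Matrix Finset

variable {k : Type} [Field k] [Fintype k] [DecidableEq k] [CharP k 2]

theorem pow16 (hk : Fintype.card k = 16) (x : k) : x ^ 16 = x := by
  rw [← hk]; exact FiniteField.pow_card x

theorem pow15 (hk : Fintype.card k = 16) (x : k) (hx : x ≠ 0) : x ^ 15 = 1 := by
  have := FiniteField.pow_card_sub_one_eq_one x hx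
  rw [hk] at this
  exact this

/-- scaling of a nonisotropic vector of the plane -/
theorem scale_exists (hk : Fintype.card k = 16) (α β : k) (h : α ^ 5 + β ^ 5 ≠ 0) :
    ∃ c η z : k, c ≠ 0 ∧ η ^ 5 = 1 ∧ z ^ 4 = z ∧ c * α = η * z ∧ c * β = 1 + z := by
  have h2 : (2 : k) = 0 := two_eq_zero'
  have hα20 : (α ^ 5) ^ 4 = α ^ 5 := by
    have := pow16 hk α
    calc (α ^ 5) ^ 4 = α ^ 16 * α ^ 4 := by ring
      _ = α * α ^ 4 := by rw [this]
      _ = α ^ 5 := by ring
  have hβ20 : (β ^ 5) ^ 4 = β ^ 5 := by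
    have := pow16 hk β
    calc (β ^ 5) ^ 4 = β ^ 16 * β ^ 4 := by ring
      _ = β * β ^ 4 := by rw [this]
      _ = β ^ 5 := by ring
  have hfrob4 : ∀ a b : k, (a + b) ^ 4 = a ^ 4 + b ^ 4 := by
    intro a b
    linear_combination (2 * a ^ 3 * b + 3 * a ^ 2 * b ^ 2 + 2 * a * b ^ 3) * h2
  have hfrob2 : ∀ a b : k, (a + b) ^ 2 = a ^ 2 + b ^ 2 := by
    intro a b
    linear_combination (a * b) * h2
  set ν := α ^ 5 + β ^ 5 with hν
  have hν4 : ν ^ 4 = ν := by rw [hν, hfrob4, hα20, hβ20]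
  have hν3 : ν ^ 3 = 1 := by
    have : ν * ν ^ 3 = ν * 1 := by rw [mul_one, ← pow_succ']; exact hν4
    exact mul_left_cancel₀ h this
  set α' := ν * α with hα'
  set β' := ν * β with hβ'
  have hunit : α' ^ 5 + β' ^ 5 = 1 := by
    have : α' ^ 5 + β' ^ 5 = ν ^ 5 * (α ^ 5 + β ^ 5) := by rw [hα', hβ']; ring
    rw [this, ← hν]
    calc ν ^ 5 * ν = (ν ^ 3) ^ 2 := by ring
      _ = 1 := by rw [hν3, one_pow]
  -- second scaling
  obtain ⟨c2, hc2, hc25, hρ⟩ : ∃ c2 : k, c2 ≠ 0 ∧ c2 ^ 5 = 1 ∧ c2 * β' = β' ^ 10 := by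
    by_cases hb : β' = 0
    · exact ⟨1, one_ne_zero, one_pow 5, by rw [hb]; simp⟩
    · refine ⟨β' ^ 9, pow_ne_zero _ hb, ?_, by ring⟩
      calc (β' ^ 9) ^ 5 = (β' ^ 15) ^ 3 := by ring
        _ = 1 := by rw [pow15 hk β' hb, one_pow]
  have hβ16 := pow16 hk β'
  set ρ := β' ^ 10 with hρdef
  have hρ4 : ρ ^ 4 = ρ := by
    calc ρ ^ 4 = (β' ^ 16) ^ 2 * β' ^ 8 := by rw [hρdef]; ring
      _ = β' ^ 10 := by rw [hβ16]; ring
  have hρ2 : ρ ^ 2 = β' ^ 5 := by
    calc ρ ^ 2 = (β' ^ 16) * β' ^ 4 := by rw [hρdef]; ring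
      _ = β' ^ 5 := by rw [hβ16]; ring
  set z := 1 + ρ with hz
  have hz4 : z ^ 4 = z := by rw [hz, hfrob4, hρ4, one_pow]
  have hz2 : z ^ 2 = 1 + ρ ^ 2 := by rw [hz, hfrob2, one_pow]
  have hα5 : (c2 * α') ^ 5 = z ^ 2 := by
    rw [mul_pow, hc25, one_mul, hz2, hρ2]
    linear_combination hunit - β' ^ 5 * h2
  refine ⟨c2 * ν, if z = 0 then 1 else c2 * α' / z, z, mul_ne_zero hc2 h, ?_, hz4, ?_, ?_⟩
  · split_ifs with h0
    · exact one_pow 5
    · rw [div_pow, hα5, div_eq_one_iff_eq (pow_ne_zero _ h0)]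
      calc z ^ 2 = z ^ 4 * z ^ 2 / z ^ 4 := by field_simp
        _ = z * z ^ 4 := by rw [hz4]; field_simp
        _ = z ^ 5 := by ring
  · split_ifs with h0
    · have : (c2 * α') ^ 5 = 0 := by rw [hα5, h0]; ring
      have h3 : c2 * α' = 0 := pow_eq_zero_iff (by norm_num) |>.mp this
      rw [h0, mul_zero, mul_assoc]; exact h3
    · rw [div_mul_cancel₀ _ h0, mul_assoc]
  · rw [mul_assoc, ← hβ', hρ, hz]
    linear_combination -h2

theorem card_isotropic (hk : Fintype.card k = 16) :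
    176 ≤ (Finset.univ.filter (fun p : k × k => p.1 ^ 5 + p.2 ^ 5 ≠ 0)).card := by
  have h1 : (Finset.univ.filter (fun p : k × k => p.1 ^ 5 + p.2 ^ 5 ≠ 0)).card +
      (Finset.univ.filter (fun p : k × k => ¬ (p.1 ^ 5 + p.2 ^ 5 ≠ 0))).card = 256 := by
    rw [Finset.card_filter_add_card_filter_not, Finset.card_univ, Fintype.card_prod, hk]
  have h2 : (Finset.univ.filter (fun p : k × k => ¬ (p.1 ^ 5 + p.2 ^ 5 ≠ 0))).card ≤ 80 := by
    have h3 : (Finset.univ.filter (fun p : k × k => ¬ (p.1 ^ 5 + p.2 ^ 5 ≠ 0))) ⊆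
        (Finset.univ : Finset k).biUnion
          (fun a => (Polynomial.nthRoots 5 (a ^ 5)).toFinset.image (fun b => (a, b))) := by
      intro p hp
      rw [Finset.mem_filter, not_not] at hp
      rw [Finset.mem_biUnion]
      refine ⟨p.1, Finset.mem_univ _, ?_⟩
      rw [Finset.mem_image]
      refine ⟨p.2, ?_, rfl⟩
      rw [Multiset.mem_toFinset, Polynomial.mem_nthRoots (by norm_num)]
      have := hp.2
      have h4 : p.1 ^ 5 = - p.2 ^ 5 := eq_neg_of_add_eq_zero_left this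
      rw [h4, CharTwo.neg_eq]
    refine (Finset.card_le_card h3).trans ?_
    refine Finset.card_biUnion_le.trans ?_
    have h5 : ∀ a ∈ (Finset.univ : Finset k),
        ((Polynomial.nthRoots 5 (a ^ 5)).toFinset.image (fun b => (a, b))).card ≤ 5 := by
      intro a _
      refine Finset.card_image_le.trans ?_
      exact (Multiset.toFinset_card_le _).trans (Polynomial.card_nthRoots 5 (a ^ 5))
    refine (Finset.sum_le_sum h5).trans ?_
    rw [Finset.sum_const, Finset.card_univ, hk]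
    norm_num
  omega

theorem card_ker (hk : Fintype.card k = 16) {m : ℕ} (M : Matrix (Fin m) (Fin 3) k)
    (hM : LinearIndependent k M.row) :
    (Finset.univ.filter (fun w : Fin 3 → k => M *ᵥ w = 0)).card = 16 ^ (3 - m) := by
  classical
  have h1 : M.rank = m := by
    rw [hM.rank_matrix, Fintype.card_fin]
  have h2 := LinearMap.finrank_range_add_finrank_ker M.mulVecLin
  rw [← Matrix.rank.eq_1, h1, Module.finrank_fin_fun] at h2
  have h3 : Module.finrank k (LinearMap.ker M.mulVecLin) = 3 - m := by omega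
  haveI : Fintype (LinearMap.ker M.mulVecLin) := Fintype.ofFinite _
  have h4 := Module.card_eq_pow_finrank (K := k) (V := LinearMap.ker M.mulVecLin)
  rw [h3, hk] at h4
  rw [← h4, Fintype.card_subtype]
  congr 1
  ext w
  simp only [Finset.mem_filter, Finset.mem_univ, true_and, LinearMap.mem_ker,
    Matrix.mulVecLin_apply]

theorem card_dot_one (hk : Fintype.card k = 16) (a : Fin 3 → k) (ha : a ≠ 0) :
    (Finset.univ.filter (fun w : Fin 3 → k => a ⬝ᵥ w = 0)).card = 256 := by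
  have h := card_ker hk (Matrix.of ![a]) (by
    have : (Matrix.of ![a]).row = ![a] := rfl
    rw [this, linearIndependent_unique_iff]
    exact ha)
  rw [show (256 : ℕ) = 16 ^ (3 - 1) by norm_num, ← h]
  congr 1
  ext w
  simp only [Finset.mem_filter, Finset.mem_univ, true_and]
  constructor
  · intro h; ext i; fin_cases i; exact h
  · intro h; exact congrFun h 0

theorem card_dot_two (hk : Fintype.card k = 16) (a b : Fin 3 → k) (ha : a ≠ 0)
    (hab : ∀ c : k, c • a ≠ b) :
    (Finset.univ.filter (fun w : Fin 3 → k => a ⬝ᵥ w = 0 ∧ b ⬝ᵥ w = 0)).card = 16 := by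
  have h := card_ker hk (Matrix.of ![a, b]) (by
    have : (Matrix.of ![a, b]).row = ![a, b] := rfl
    rw [this, LinearIndependent.pair_iff' ha]
    exact hab)
  rw [show (3 - 2) = 1 by norm_num, pow_one] at h
  rw [← h]
  congr 1
  ext w
  simp only [Finset.mem_filter, Finset.mem_univ, true_and]
  constructor
  · rintro ⟨h1, h2⟩; ext i; fin_cases i
    · exact h1
    · exact h2
  · intro h; exact ⟨congrFun h 0, congrFun h 1⟩

theorem form_eq_zero_iff (τ : k →+* k) (hτ : ∀ x, τ (τ x) = x) (v w : Fin 3 → k) :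
    form τ v w = 0 ↔ (fun i => τ (v i)) ⬝ᵥ w = 0 := by
  rw [← form_symm τ hτ w v]
  rw [map_eq_zero_iff τ τ.injective]
  have : form τ w v = (fun i => τ (v i)) ⬝ᵥ w := by
    rw [dotProduct, Fin.sum_univ_three, form]; ring
  rw [this]

theorem card_perp_one (hk : Fintype.card k = 16) (τ : k →+* k) (hτ : ∀ x, τ (τ x) = x)
    (v : Fin 3 → k) (hv : v ≠ 0) :
    (Finset.univ.filter (fun w : Fin 3 → k => form τ v w = 0)).card = 256 := by
  rw [← card_dot_one hk (fun i => τ (v i)) (by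
    intro h
    apply hv
    ext i
    have := congrFun h i
    exact (map_eq_zero_iff τ τ.injective).mp this)]
  congr 1
  ext w
  simp only [Finset.mem_filter, Finset.mem_univ, true_and]
  exact form_eq_zero_iff τ hτ v w

theorem card_perp_two (hk : Fintype.card k = 16) (τ : k →+* k) (hτ : ∀ x, τ (τ x) = x)
    (v v' : Fin 3 → k) (hv : v ≠ 0) (hvv : ∀ c : k, c • v ≠ v') :
    (Finset.univ.filter (fun w : Fin 3 → k => form τ v w = 0 ∧ form τ v' w = 0)).card = 16 := by
  rw [← card_dot_two hk (fun i => τ (v i)) (fun i => τ (v' i)) (by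
    intro h
    apply hv
    ext i
    have := congrFun h i
    exact (map_eq_zero_iff τ τ.injective).mp this) (by
    intro c h
    apply hvv (τ c)
    ext i
    have := congrFun h i
    simp only [Pi.smul_apply, smul_eq_mul] at this ⊢
    rw [← hτ (v' i), ← this, map_mul, hτ])]
  congr 1
  ext w
  simp only [Finset.mem_filter, Finset.mem_univ, true_and]
  rw [form_eq_zero_iff τ hτ, form_eq_zero_iff τ hτ]

end Pool.Y52.PT
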