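import Pool.Agent.Y52.PT.AngleF

/-! # The group `Γ` and its property (T) -/

set_option autoImplicit false

namespace Pool.Y52.PT

open Matrix
open Matrix.GeneralLinearGroup

variable {k : Type} [Field k] [Fintype k] [CharP k 2] (τ : k →+* k)
variable {R : Type} [CommRing R] (ι : k →+* R) (s : Rˣ)

/-- the twisted embeddings -/
def tw (n : ℕ) : GL (Fin 3) k →* GL (Fin 3) R :=
  (MulAut.conj (Emat s ^ n)).toMonoidHom.comp (map ι)

theorem tw_apply (n : ℕ) (g : GL (Fin 3) k) :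
    tw ι s n g = Emat s ^ n * map ι g * (Emat s ^ n)⁻¹ := rfl

/-- the group `Γ` -/
def Gam : Subgroup (GL (Fin 3) R) :=
  Subgroup.closure {h | ∃ n : Fin 3, ∃ g ∈ Sgrp τ, h = tw ι s n.1 g}

theorem map_Emat_one : map ι (Emat (1 : kˣ)) = Emat (1 : Rˣ) := by
  ext i j
  fin_cases i <;> fin_cases j <;> simp [Emat]

theorem D_comm (hτ : ∀ x, τ (τ x) = x) (a : GL (Fin 3) k) (ha : a ∈ Sgrp τ)
    (hfix : a ∈ fixPt (ee 0 : Fin 3 → k)) :
    Dmat s 1 1 * map ι a = map ι a * Dmat s 1 1 := by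
  obtain ⟨c, hc, hcc⟩ := hfix
  obtain ⟨h10, h20, h01, h02⟩ := block_of_fix τ a (Sgrp_le τ hτ ha) c hcc
  ext i j
  have hm : ∀ i j, (map ι a).1 i j = ι (a.1 i j) := fun i j => rfl
  rw [Units.val_mul, Units.val_mul, Matrix.mul_apply, Matrix.mul_apply, Fin.sum_univ_three,
    Fin.sum_univ_three]
  simp only [hm]
  fin_cases i <;> fin_cases j <;> simp [Dmat, h10, h20, h01, h02, mul_comm]

theorem E_conj (hτ : ∀ x, τ (τ x) = x) (a : GL (Fin 3) k) (ha : a ∈ Sgrp τ)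
    (hfix : a ∈ fixPt (ee 0 : Fin 3 → k)) :
    Emat s * map ι a * (Emat s)⁻¹ = map ι (Emat 1 * a * (Emat 1)⁻¹) := by
  rw [map_mul, map_mul, map_inv, map_Emat_one, Emat_eq s, mul_inv_eq_iff_eq_mul]
  rw [mul_assoc (Emat 1), D_comm τ ι s hτ a ha hfix]
  group

theorem tw_succ (hτ : ∀ x, τ (τ x) = x) (n : ℕ) (a : GL (Fin 3) k) (ha : a ∈ Sgrp τ)
    (hfix : a ∈ fixPt (ee 0 : Fin 3 → k)) :
    tw ι s (n + 1) a = tw ι s n (Emat 1 * a * (Emat 1)⁻¹) := by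
  rw [tw_apply, tw_apply, ← E_conj τ ι s hτ a ha hfix, pow_succ]
  group

theorem tw_three (n : ℕ) (a : GL (Fin 3) k) : tw ι s (n + 3) a = tw ι s n a := by
  rw [tw_apply, tw_apply, pow_add, Emat_cube]
  have h := Dmat_scalar_comm s (map ι a)
  calc Emat s ^ n * Dmat s s s * map ι a * (Emat s ^ n * Dmat s s s)⁻¹
      = Emat s ^ n * (Dmat s s s * map ι a) * (Emat s ^ n * Dmat s s s)⁻¹ := by group
    _ = Emat s ^ n * (map ι a * Dmat s s s) * (Emat s ^ n * Dmat s s s)⁻¹ := by rw [h]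
    _ = _ := by group

/-- the twisted embeddings into `Γ` -/
def th (n : Fin 3) : Sgrp τ →* Gam τ ι s :=
  ((tw ι s n.1).comp (Sgrp τ).subtype).codRestrict (Gam τ ι s)
    (fun g => Subgroup.subset_closure ⟨n, g.1, g.2, rfl⟩)

theorem th_val (n : Fin 3) (g : Sgrp τ) : (th τ ι s n g).1 = tw ι s n.1 g.1 := rfl

theorem th_succ (hτ : ∀ x, τ (τ x) = x) (n : Fin 3) (a : Sgrp τ) (ha : a ∈ stA τ 0) :
    th τ ι s (n + 1) a = th τ ι s n
      (⟨Emat 1, Emat_one_mem_Sgrp τ⟩ * a * ⟨Emat 1, Emat_one_mem_Sgrp τ⟩⁻¹) := by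
  apply Subtype.ext
  rw [th_val, th_val]
  have hfix : a.1 ∈ fixPt (ee 0 : Fin 3 → k) := ha
  have e : (⟨Emat 1, Emat_one_mem_Sgrp τ⟩ * a * ⟨Emat 1, Emat_one_mem_Sgrp τ⟩⁻¹ : Sgrp τ).1
      = Emat 1 * a.1 * (Emat 1)⁻¹ := rfl
  rw [e, ← tw_succ τ ι s hτ n.1 a.1 a.2 hfix]
  fin_cases n
  · rfl
  · rfl
  · exact (tw_three ι s 0 a.1).symm

theorem th_map (hτ : ∀ x, τ (τ x) = x) (n : Fin 3) :
    (stA τ 2).map (th τ ι s n) = (stA τ 0).map (th τ ι s (n + 1)) := by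
  set r : Sgrp τ := ⟨Emat 1, Emat_one_mem_Sgrp τ⟩ with hr
  ext h
  constructor
  · rintro ⟨b, hb, rfl⟩
    have hb' : b ∈ stA τ 2 := hb
    have hra : r * (r⁻¹ * b * r) * r⁻¹ = b := by group
    have ha : r⁻¹ * b * r ∈ stA τ 0 := by
      rw [conj_stA τ, ← hr, hra]; exact hb'
    refine ⟨r⁻¹ * b * r, ha, ?_⟩
    rw [th_succ τ ι s hτ n _ ha, ← hr, hra]
  · rintro ⟨a, ha, rfl⟩
    have ha' : a ∈ stA τ 0 := ha
    refine ⟨r * a * r⁻¹, (conj_stA τ a).mp ha', ?_⟩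
    rw [th_succ τ ι s hτ n a ha']

theorem propT_Gam (hk : Fintype.card k = 16) (hτ4 : ∀ x, τ x = x ^ 4) :
    PropT (Gam τ ι s) := by
  classical
  have hτ := tau_invol τ hk hτ4
  haveI : Finite (Sgrp τ) := inferInstance
  refine propT_of_angle (Sgrp τ) (stA τ 0) (stA τ 2) (15 / 44) (by norm_num) (by norm_num)
    (angleCond_S τ hk hτ4) (Gam τ ι s) (th τ ι s) (th_map τ ι s hτ) ?_
  intro K hK g
  obtain ⟨g, hg⟩ := g
  refine Subgroup.closure_induction (p := fun g hg => (⟨g, hg⟩ : Gam τ ι s) ∈ K)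
    ?_ ?_ ?_ ?_ hg
  · rintro _ ⟨n, x, hx, rfl⟩
    exact hK n ⟨x, hx⟩
  · exact K.one_mem
  · intro x y hx hy h1 h2
    exact K.mul_mem h1 h2
  · intro x hx h
    exact K.inv_mem h

end Pool.Y52.PT
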