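import Mathlib

/-! # Unitary 3x3 matrices in characteristic two -/

set_option autoImplicit false

namespace Pool.Y52.PT

open Matrix

section general

variable {R : Type*} [CommRing R]

/-- the monomial matrix `e₀ ↦ s e₂`, `e₁ ↦ e₀`, `e₂ ↦ e₁` -/
def Emat (s : Rˣ) : GL (Fin 3) R where
  val := !![0, 1, 0; 0, 0, 1; (s : R), 0, 0]
  inv := !![0, 0, ((s⁻¹ : Rˣ) : R); 1, 0, 0; 0, 1, 0]
  val_inv := by
    ext i j; fin_cases i <;> fin_cases j <;> simp [Matrix.mul_apply, Fin.sum_univ_three]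
  inv_val := by
    ext i j; fin_cases i <;> fin_cases j <;> simp [Matrix.mul_apply, Fin.sum_univ_three]

/-- diagonal matrices -/
def Dmat (a b c : Rˣ) : GL (Fin 3) R where
  val := !![(a : R), 0, 0; 0, (b : R), 0; 0, 0, (c : R)]
  inv := !![((a⁻¹ : Rˣ) : R), 0, 0; 0, ((b⁻¹ : Rˣ) : R), 0; 0, 0, ((c⁻¹ : Rˣ) : R)]
  val_inv := by
    ext i j; fin_cases i <;> fin_cases j <;> simp [Matrix.mul_apply, Fin.sum_univ_three]
  inv_val := by
    ext i j; fin_cases i <;> fin_cases j <;> simp [Matrix.mul_apply, Fin.sum_univ_three]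

theorem Emat_cube (s : Rˣ) : Emat s ^ 3 = Dmat s s s := by
  ext i j
  rw [pow_succ, pow_succ, pow_one]
  fin_cases i <;> fin_cases j <;>
    simp [Emat, Dmat, Matrix.mul_apply, Fin.sum_univ_three]

theorem Emat_eq (s : Rˣ) : Emat s = Emat 1 * Dmat s 1 1 := by
  ext i j
  fin_cases i <;> fin_cases j <;>
    simp [Emat, Dmat, Matrix.mul_apply, Fin.sum_univ_three]

theorem Dmat_scalar_comm (s : Rˣ) (g : GL (Fin 3) R) : Dmat s s s * g = g * Dmat s s s := by
  ext i j
  fin_cases i <;> fin_cases j <;>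
    simp [Dmat, Matrix.mul_apply, Fin.sum_univ_three, mul_comm]

end general

variable {K : Type*} [Field K] (τ : K →+* K)

/-- the Hermitian form -/
def form (x y : Fin 3 → K) : K := x 0 * τ (y 0) + x 1 * τ (y 1) + x 2 * τ (y 2)

theorem form_add_left (x x' y : Fin 3 → K) : form τ (x + x') y = form τ x y + form τ x' y := by
  simp [form]; ring

theorem form_add_right (x y y' : Fin 3 → K) : form τ x (y + y') = form τ x y + form τ x y' := by
  simp [form]; ring

theorem form_smul_left (c : K) (x y : Fin 3 → K) : form τ (c • x) y = c * form τ x y := by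
  simp [form]; ring

theorem form_smul_right (c : K) (x y : Fin 3 → K) : form τ x (c • y) = τ c * form τ x y := by
  simp [form]; ring

theorem form_symm (hτ : ∀ x, τ (τ x) = x) (x y : Fin 3 → K) :
    τ (form τ x y) = form τ y x := by
  simp [form, hτ]; ring

/-- the unitary group -/
def U3 : Subgroup (GL (Fin 3) K) where
  carrier := {g | ∀ x y, form τ (g.1 *ᵥ x) (g.1 *ᵥ y) = form τ x y}
  mul_mem' := by
    intro a b ha hb x y
    rw [Units.val_mul, ← Matrix.mulVec_mulVec, ← Matrix.mulVec_mulVec, ha, hb]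
  one_mem' := by
    intro x y
    rw [Units.val_one, Matrix.one_mulVec, Matrix.one_mulVec]
  inv_mem' := by
    intro a ha x y
    rw [← ha]
    simp only [Matrix.mulVec_mulVec]
    rw [← Units.val_mul, mul_inv_cancel, Units.val_one, Matrix.one_mulVec, Matrix.one_mulVec]

theorem mem_U3 (g : GL (Fin 3) K) :
    g ∈ U3 τ ↔ ∀ x y, form τ (g.1 *ᵥ x) (g.1 *ᵥ y) = form τ x y := Iff.rfl

theorem mulVec3 (A : Matrix (Fin 3) (Fin 3) K) (x : Fin 3 → K) (i : Fin 3) :
    (A *ᵥ x) i = A i 0 * x 0 + A i 1 * x 1 + A i 2 * x 2 := by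
  rw [Matrix.mulVec, dotProduct, Fin.sum_univ_three]

theorem Emat_mem (s : Kˣ) (hs : (s : K) * τ s = 1) : Emat s ∈ U3 τ := by
  intro x y
  simp only [form, mulVec3, Emat]
  simp
  linear_combination (x 0 * τ (y 0)) * hs

theorem Dmat_mem (a b c : Kˣ) (ha : (a : K) * τ a = 1) (hb : (b : K) * τ b = 1)
    (hc : (c : K) * τ c = 1) : Dmat a b c ∈ U3 τ := by
  intro x y
  simp only [form, mulVec3, Dmat]
  simp
  linear_combination (x 0 * τ (y 0)) * ha + (x 1 * τ (y 1)) * hb + (x 2 * τ (y 2)) * hc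

variable [CharP K 2]

theorem two_eq_zero' : (2 : K) = 0 := CharTwo.two_eq_zero

/-- the unipotent elements fixing `(1,1,0)` -/
def umat (x z : K) : GL (Fin 3) K where
  val := !![1 + z, z, x; z, 1 + z, x; τ x, τ x, 1]
  inv := !![1 + (z + x * τ x), (z + x * τ x), x; (z + x * τ x), 1 + (z + x * τ x), x; τ x, τ x, 1]
  val_inv := by
    have h2 : (2 : K) = 0 := two_eq_zero'
    ext i j
    fin_cases i <;> fin_cases j <;> simp [Matrix.mul_apply, Fin.sum_univ_three] <;>
      ring_nf <;> simp [h2]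
  inv_val := by
    have h2 : (2 : K) = 0 := two_eq_zero'
    ext i j
    fin_cases i <;> fin_cases j <;> simp [Matrix.mul_apply, Fin.sum_univ_three] <;>
      ring_nf <;> simp [h2]

theorem umat_val (x z : K) : (umat τ x z).1 = !![1 + z, z, x; z, 1 + z, x; τ x, τ x, 1] := rfl

end Pool.Y52.PT
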