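import Pool.Agent.Y52.PT.Herm

/-! # Unitary 3x3 matrices in characteristic two, II -/

set_option autoImplicit false

namespace Pool.Y52.PT

open Matrix

variable {K : Type*} [Field K] (τ : K →+* K) [CharP K 2]

theorem umat_mul (x z x' z' : K) (hτ : ∀ x, τ (τ x) = x) :
    umat τ x z * umat τ x' z' = umat τ (x + x') (z + z' + x * τ x') := by
  have h2 : (2 : K) = 0 := two_eq_zero'
  ext i j
  rw [Units.val_mul, umat_val, umat_val, umat_val]
  fin_cases i <;> fin_cases j <;> simp [Matrix.mul_apply, Fin.sum_univ_three]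
  · linear_combination (z * z') * h2
  · linear_combination (z * z') * h2
  · linear_combination (z * x') * h2
  · linear_combination (z * z') * h2
  · linear_combination (z * z') * h2
  · linear_combination (z * x') * h2
  · linear_combination (τ x * z') * h2
  · linear_combination (τ x * z') * h2
  · linear_combination (τ x * x') * h2

theorem umat_mem (hτ : ∀ x, τ (τ x) = x) (x z : K) (hz : z + τ z = x * τ x) :
    umat τ x z ∈ U3 τ := by
  have h2 : (2 : K) = 0 := two_eq_zero'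
  intro a b
  simp only [form, mulVec3, umat_val]
  simp [hτ]
  linear_combination (a 0 + a 1) * (τ (b 0) + τ (b 1)) * hz +
    (z * τ z * (a 0 * τ (b 0) + a 0 * τ (b 1) + a 1 * τ (b 0) + a 1 * τ (b 1)) +
      x * τ x * (a 0 * τ (b 0) + a 0 * τ (b 1) + a 1 * τ (b 0) + a 1 * τ (b 1)) +
      x * τ x * a 2 * τ (b 2) + a 2 * x * (τ (b 0) + τ (b 1)) + τ x * τ (b 2) * (a 0 + a 1) +
      τ z * x * a 2 * (τ (b 0) + τ (b 1)) + z * τ x * τ (b 2) * (a 0 + a 1)) * h2

/-- the group generated by the unipotent elements -/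
def Sgrp : Subgroup (GL (Fin 3) K) :=
  Subgroup.closure {h | ∃ g ∈ U3 τ, ∃ x z, z + τ z = x * τ x ∧ h = g * umat τ x z * g⁻¹}

theorem Sgrp_le (hτ : ∀ x, τ (τ x) = x) : Sgrp τ ≤ U3 τ := by
  rw [Sgrp, Subgroup.closure_le]
  rintro _ ⟨g, hg, x, z, hz, rfl⟩
  exact (U3 τ).mul_mem ((U3 τ).mul_mem hg (umat_mem τ hτ x z hz)) ((U3 τ).inv_mem hg)

theorem conj_umat_mem_Sgrp (g : GL (Fin 3) K) (hg : g ∈ U3 τ) (x z : K)
    (hz : z + τ z = x * τ x) : g * umat τ x z * g⁻¹ ∈ Sgrp τ :=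
  Subgroup.subset_closure ⟨g, hg, x, z, hz, rfl⟩

theorem umat_mem_Sgrp (x z : K) (hz : z + τ z = x * τ x) : umat τ x z ∈ Sgrp τ := by
  have := conj_umat_mem_Sgrp τ 1 (U3 τ).one_mem x z hz
  simpa using this

theorem umat01_z : (1 : K) + τ 1 = 0 * τ 0 := by
  rw [map_one, map_zero, mul_zero]
  exact CharTwo.add_self_eq_zero 1

theorem Emat_one_eq :
    (Emat (1 : Kˣ)) = umat τ 0 1 * (Emat 1 * umat τ 0 1 * (Emat 1)⁻¹) := by
  rw [eq_comm, ← mul_assoc, mul_inv_eq_iff_eq_mul]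
  have h2 : (2 : K) = 0 := two_eq_zero'
  have h11 : (1 : K) + 1 = 0 := CharTwo.add_self_eq_zero 1
  ext i j
  simp only [Units.val_mul, umat_val, Emat]
  fin_cases i <;> fin_cases j <;> simp [Matrix.mul_apply, Fin.sum_univ_three, h11]

theorem Emat_one_mem_U3 : Emat (1 : Kˣ) ∈ U3 τ := Emat_mem τ 1 (by simp)

theorem Emat_one_mem_Sgrp : Emat (1 : Kˣ) ∈ Sgrp τ := by
  rw [Emat_one_eq τ]
  exact (Sgrp τ).mul_mem (umat_mem_Sgrp τ 0 1 (umat01_z τ))
    (conj_umat_mem_Sgrp τ _ (Emat_one_mem_U3 τ) 0 1 (umat01_z τ))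

/-- a unitary matrix which fixes the point `e₀` is block diagonal -/
theorem block_of_fix (g : GL (Fin 3) K) (hg : g ∈ U3 τ) (c : K)
    (hc : g.1 *ᵥ (Pi.single 0 1) = c • Pi.single 0 1) :
    g.1 1 0 = 0 ∧ g.1 2 0 = 0 ∧ g.1 0 1 = 0 ∧ g.1 0 2 = 0 := by
  have h0 : g.1 0 0 = c := by
    have := congrFun hc 0
    simpa [mulVec3] using this
  have h1 : g.1 1 0 = 0 := by
    have := congrFun hc 1
    simpa [mulVec3] using this
  have h2 : g.1 2 0 = 0 := by
    have := congrFun hc 2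
    simpa [mulVec3] using this
  have hcc : c * τ c = 1 := by
    have := hg (Pi.single 0 1) (Pi.single 0 1)
    simpa [form, mulVec3, h0, h1, h2] using this
  have hτc : τ c ≠ 0 := by
    intro h; rw [h, mul_zero] at hcc; exact zero_ne_one hcc
  refine ⟨h1, h2, ?_, ?_⟩
  · have := hg (Pi.single 1 1) (Pi.single 0 1)
    simp [form, mulVec3, h0, h1, h2] at this
    rcases this with h | h
    · exact h
    · exact absurd (by rw [h, map_zero]) hτc
  · have := hg (Pi.single 2 1) (Pi.single 0 1)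
    simp [form, mulVec3, h0, h1, h2] at this
    rcases this with h | h
    · exact h
    · exact absurd (by rw [h, map_zero]) hτc

end Pool.Y52.PT
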