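import Pool.Agent.Y52.PT.Three

/-! # Three subspaces: the gradient iteration -/

set_option autoImplicit false

namespace Pool.Y52.PT

open scoped InnerProductSpace
open Filter Topology

variable {H : Type*} [NormedAddCommGroup H] [InnerProductSpace ℂ H]

/-- the sum of the three complementary projections -/
noncomputable def Dl (V : Fin 3 → Submodule ℂ H) [∀ i, (V i).HasOrthogonalProjection]
    (v : H) : H := ∑ i, Qp (V i) v

/-- the energy -/
noncomputable def En (V : Fin 3 → Submodule ℂ H) [∀ i, (V i).HasOrthogonalProjection]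
    (v : H) : ℝ := ∑ i, ‖Qp (V i) v‖ ^ 2

/-- one step of the iteration -/
noncomputable def St (V : Fin 3 → Submodule ℂ H) [∀ i, (V i).HasOrthogonalProjection]
    (v : H) : H := v - (1 / 3 : ℝ) • Dl V v

theorem Qp_sub (V : Submodule ℂ H) [V.HasOrthogonalProjection] (v w : H) :
    Qp V (v - w) = Qp V v - Qp V w := by
  simp only [Qp, map_sub]; abel

theorem Qp_smul (V : Submodule ℂ H) [V.HasOrthogonalProjection] (r : ℝ) (v : H) :
    Qp V (r • v) = r • Qp V v := by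
  have : (V.starProjection (r • v)) = r • V.starProjection v := by
    have h := map_smul V.starProjection (r : ℂ) v
    simpa using h
  simp only [Qp, this, smul_sub]

theorem Qp_re (V : Submodule ℂ H) [V.HasOrthogonalProjection] (v w : H) :
    RCLike.re ⟪Qp V v, Qp V w⟫_ℂ = RCLike.re ⟪Qp V v, w⟫_ℂ := by
  rw [Qp_inner_Qp]

theorem real_smul_inner_re (r : ℝ) (v w : H) :
    RCLike.re ⟪v, r • w⟫_ℂ = r * RCLike.re ⟪v, w⟫_ℂ := by
  rw [inner_smul_right_eq_smul]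
  simp

variable (V : Fin 3 → Submodule ℂ H) [∀ i, (V i).HasOrthogonalProjection]

theorem Dl_norm_sq_le (v : H) : ‖Dl V v‖ ^ 2 ≤ 3 * En V v := by
  have h : ‖Dl V v‖ ≤ ∑ i, ‖Qp (V i) v‖ := norm_sum_le _ _
  have h2 : ‖Dl V v‖ ^ 2 ≤ (∑ i, ‖Qp (V i) v‖) ^ 2 :=
    pow_le_pow_left₀ (norm_nonneg _) h 2
  refine h2.trans ?_
  rw [En, Fin.sum_univ_three, Fin.sum_univ_three]
  nlinarith [sq_nonneg (‖Qp (V 0) v‖ - ‖Qp (V 1) v‖), sq_nonneg (‖Qp (V 0) v‖ - ‖Qp (V 2) v‖),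
    sq_nonneg (‖Qp (V 1) v‖ - ‖Qp (V 2) v‖)]

theorem En_nonneg (v : H) : 0 ≤ En V v := by
  unfold En; positivity

theorem Dl_lower (c : ℝ)
    (hp : ∀ i j, i ≠ j → ∀ v, (1 - c) * (‖Qp (V i) v‖ ^ 2 + ‖Qp (V j) v‖ ^ 2) ≤
      ‖Qp (V i) v + Qp (V j) v‖ ^ 2) (v : H) :
    (1 - 2 * c) * En V v ≤ ‖Dl V v‖ ^ 2 := by
  have h01 := hp 0 1 (by decide) v
  have h02 := hp 0 2 (by decide) v
  have h12 := hp 1 2 (by decide) v
  rw [@norm_add_sq ℂ] at h01 h02 h12
  rw [Dl, En, Fin.sum_univ_three, Fin.sum_univ_three, @norm_add_sq ℂ, @norm_add_sq ℂ,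
    inner_add_left, map_add]
  nlinarith

theorem En_step (c : ℝ)
    (hp : ∀ i j, i ≠ j → ∀ v, (1 - c) * (‖Qp (V i) v‖ ^ 2 + ‖Qp (V j) v‖ ^ 2) ≤
      ‖Qp (V i) v + Qp (V j) v‖ ^ 2) (v : H) :
    En V (St V v) ≤ (1 - (1 - 2 * c) / 3) * En V v := by
  have hlow := Dl_lower V c hp v
  have key : ∀ i, ‖Qp (V i) (St V v)‖ ^ 2 = ‖Qp (V i) v‖ ^ 2
      - (2 / 3) * RCLike.re ⟪Qp (V i) v, Dl V v⟫_ℂ + (1 / 9) * ‖Qp (V i) (Dl V v)‖ ^ 2 := by
    intro i
    rw [St, Qp_sub, Qp_smul, @norm_sub_sq ℂ, real_smul_inner_re, Qp_re, norm_smul, mul_pow,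
      Real.norm_of_nonneg (by norm_num : (0:ℝ) ≤ 1/3)]
    ring
  have hsum : ∑ i, RCLike.re ⟪Qp (V i) v, Dl V v⟫_ℂ = ‖Dl V v‖ ^ 2 := by
    rw [← map_sum, ← sum_inner, ← Dl, ← norm_sq_eq_re_inner]
  have hsum2 : ∑ i, ‖Qp (V i) (Dl V v)‖ ^ 2 ≤ 3 * ‖Dl V v‖ ^ 2 := by
    have : ∑ i : Fin 3, ‖Qp (V i) (Dl V v)‖ ^ 2 ≤ ∑ i : Fin 3, ‖Dl V v‖ ^ 2 :=
      Finset.sum_le_sum (fun i _ => pow_le_pow_left₀ (norm_nonneg _) (Qp_norm_le _ _) 2)
    simpa using this
  have e : En V (St V v) = En V v - (2/3) * ‖Dl V v‖ ^ 2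
      + (1/9) * ∑ i, ‖Qp (V i) (Dl V v)‖ ^ 2 := by
    rw [← hsum, En, En, Finset.mul_sum, Finset.mul_sum, ← Finset.sum_sub_distrib,
      ← Finset.sum_add_distrib]
    exact Finset.sum_congr rfl (fun i _ => key i)
  rw [e]
  nlinarith

theorem St_dist (v : H) : ‖v - St V v‖ ≤ Real.sqrt (En V v) := by
  have h1 : v - St V v = (1 / 3 : ℝ) • Dl V v := by rw [St]; abel
  rw [h1, norm_smul, Real.norm_of_nonneg (by norm_num : (0:ℝ) ≤ 1/3)]
  apply Real.le_sqrt_of_sq_le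
  have := Dl_norm_sq_le V v
  have h0 := En_nonneg V v
  nlinarith

theorem En_continuous : Continuous (En V) := by
  unfold En Qp
  fun_prop

theorem exists_near [CompleteSpace H] (c : ℝ) (hc0 : 0 ≤ c) (hc : c < 1 / 2)
    (hp : ∀ i j, i ≠ j → ∀ v, (1 - c) * (‖Qp (V i) v‖ ^ 2 + ‖Qp (V j) v‖ ^ 2) ≤
      ‖Qp (V i) v + Qp (V j) v‖ ^ 2) :
    ∃ C : ℝ, 0 < C ∧ ∀ v : H, ∃ w : H, (∀ i, w ∈ V i) ∧ ‖v - w‖ ≤ C * Real.sqrt (En V v) := by
  set r : ℝ := 1 - (1 - 2 * c) / 3 with hr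
  have hr0 : 0 < r := by rw [hr]; linarith
  have hr1 : r < 1 := by rw [hr]; linarith
  have hs0 : 0 < Real.sqrt r := Real.sqrt_pos.mpr hr0
  have hs1 : Real.sqrt r < 1 := by
    rw [Real.sqrt_lt' one_pos]; simpa using hr1
  refine ⟨1 / (1 - Real.sqrt r), by apply div_pos one_pos; linarith, fun v => ?_⟩
  set f : ℕ → H := fun n => (St V)^[n] v with hf
  have hE : ∀ n, En V (f n) ≤ r ^ n * En V v := by
    intro n
    induction n with
    | zero => simp [hf]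
    | succ n ih =>
      have h1 : f (n + 1) = St V (f n) := by
        simp only [hf, Function.iterate_succ_apply']
      rw [h1]
      refine (En_step V c hp (f n)).trans ?_
      rw [pow_succ]
      calc r * En V (f n) ≤ r * (r ^ n * En V v) := mul_le_mul_of_nonneg_left ih hr0.le
        _ = _ := by ring
  have hd : ∀ n, dist (f n) (f (n + 1)) ≤ Real.sqrt (En V v) * Real.sqrt r ^ n := by
    intro n
    have h1 : f (n + 1) = St V (f n) := by
      simp only [hf, Function.iterate_succ_apply']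
    rw [h1, dist_eq_norm]
    refine (St_dist V (f n)).trans ?_
    have h2 : Real.sqrt (En V (f n)) ≤ Real.sqrt (r ^ n * En V v) := Real.sqrt_le_sqrt (hE n)
    refine h2.trans (le_of_eq ?_)
    rw [Real.sqrt_mul (by positivity), mul_comm]
    congr 1
    rw [Real.sqrt_eq_iff_mul_self_eq (by positivity) (by positivity), ← mul_pow,
      Real.mul_self_sqrt hr0.le]
  have hcs : CauchySeq f := cauchySeq_of_le_geometric _ _ hs1 hd
  obtain ⟨w, hw⟩ := cauchySeq_tendsto_of_complete hcs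
  have hE0 : Tendsto (fun n => En V (f n)) atTop (𝓝 (En V w)) :=
    ((En_continuous V).tendsto w).comp hw
  have hE1 : Tendsto (fun n => En V (f n)) atTop (𝓝 0) := by
    refine squeeze_zero (fun n => En_nonneg V _) hE ?_
    have := (tendsto_pow_atTop_nhds_zero_of_lt_one hr0.le hr1).mul_const (En V v)
    simpa using this
  have hEw : En V w = 0 := tendsto_nhds_unique hE0 hE1
  refine ⟨w, fun i => ?_, ?_⟩
  · have h1 : ‖Qp (V i) w‖ ^ 2 = 0 := by
      have := (Finset.sum_eq_zero_iff_of_nonneg (s := Finset.univ)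
        (f := fun i => ‖Qp (V i) w‖ ^ 2) (fun i _ => by positivity)).mp hEw i (Finset.mem_univ i)
      exact this
    have h2 : Qp (V i) w = 0 := by
      rw [sq_eq_zero_iff, norm_eq_zero] at h1; exact h1
    rw [Qp, sub_eq_zero] at h2
    rw [h2]
    exact (V i).starProjection_apply_mem w
  · have h3 := dist_le_of_le_geometric_of_tendsto₀ _ _ hs1 hd hw
    rw [dist_eq_norm] at h3
    have h4 : f 0 = v := rfl
    rw [h4] at h3
    calc ‖v - w‖ ≤ Real.sqrt (En V v) / (1 - Real.sqrt r) := h3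
      _ = _ := by ring

end Pool.Y52.PT
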