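import Pool.Agent.Y52.PT.Eval

/-! # The image of `Γ` contains all unipotent elements -/

set_option autoImplicit false

namespace Pool.Y52.PT

open Matrix
open Matrix.GeneralLinearGroup
open scoped commutatorElement

variable {k : Type} [Field k] [Fintype k] [CharP k 2] (τ : k →+* k) (hτ : ∀ x, τ (τ x) = x)
variable {R : Type} [CommRing R] (ι : k →+* R) (s : Rˣ)
variable {K : Type} [Field K] [CharP K 2] (τ' : K →+* K) (hτ' : ∀ x, τ' (τ' x) = x)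
variable (j : k →+* K) (hj : ∀ c, τ' (j c) = j (τ c))
variable (ev : R →+* K) (hev : ∀ c, ev (ι c) = j c)
variable (ζ : Kˣ) (hζ : (ζ : K) = ev s) (hζ1 : (ζ : K) * τ' ζ = 1)

/-- the image subgroup -/
def Img : Subgroup (GL (Fin 3) K) := (Gam τ ι s).map (Matrix.GeneralLinearGroup.map ev)

theorem mem_Img (g : GL (Fin 3) K) : g ∈ Img τ ι s ev ↔
    ∃ γ ∈ Gam τ ι s, Matrix.GeneralLinearGroup.map ev γ = g := Iff.rfl

include hζ in
theorem map_Dmat_pow (m : ℕ) :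
    Matrix.GeneralLinearGroup.map ev (Dmat 1 1 s ^ m) = Dmat 1 1 ζ ^ m := by
  rw [map_pow]
  congr 1
  ext a b
  have hm : (Matrix.GeneralLinearGroup.map ev (Dmat 1 1 s)) a b =
    ev ((Dmat 1 1 s).1 a b) := rfl
  rw [hm]
  fin_cases a <;> fin_cases b <;> simp [Dmat, hζ]

include hζ1 in
theorem Dpow_conj (m : ℕ) (x z : K) :
    Dmat 1 1 ζ ^ m * umat τ' x z * (Dmat 1 1 ζ ^ m)⁻¹ =
      umat τ' (((ζ⁻¹ : Kˣ) : K) ^ m * x) z := by
  induction m with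
  | zero => simp
  | succ m ih =>
    have e : Dmat 1 1 ζ ^ (m + 1) * umat τ' x z * (Dmat 1 1 ζ ^ (m + 1))⁻¹ =
        Dmat 1 1 ζ * (Dmat 1 1 ζ ^ m * umat τ' x z * (Dmat 1 1 ζ ^ m)⁻¹) * (Dmat 1 1 ζ)⁻¹ := by
      rw [pow_succ']; group
    rw [e, ih, Dconj τ' 1 ζ (by simp) hζ1]
    congr 1
    rw [pow_succ]
    simp
    ring

theorem umat_comm' (hτ' : ∀ x, τ' (τ' x) = x) (x z x' z' : K) :
    umat τ' x z * umat τ' x' z' * (umat τ' x z)⁻¹ * (umat τ' x' z')⁻¹ =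
      umat τ' 0 (x * τ' x' + x' * τ' x) := by
  have two : (2 : K) = 0 := two_eq_zero'
  rw [mul_inv_eq_iff_eq_mul, mul_inv_eq_iff_eq_mul, umat_mul τ' _ _ _ _ hτ',
    umat_mul τ' _ _ _ _ hτ', umat_mul τ' _ _ _ _ hτ']
  congr 1
  · ring
  · rw [zero_add]
    linear_combination (-(x' * τ' x)) * two

include hτ' hj hev hζ hζ1 in
theorem umat_pow_mem (bk : k) (hbk : bk + τ bk = 1) (hτ : ∀ x, τ (τ x) = x) (c : k) (m : ℕ) :
    ∃ z : K, z + τ' z = (j c * ((ζ⁻¹ : Kˣ) : K) ^ m) * τ' (j c * ((ζ⁻¹ : Kˣ) : K) ^ m) ∧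
      umat τ' (j c * ((ζ⁻¹ : Kˣ) : K) ^ m) z ∈ Img τ ι s ev := by
  -- the element over `k`
  set zk : k := c * τ c * bk with hzk
  have hz : zk + τ zk = c * τ c := by
    rw [hzk]
    simp only [map_mul, hτ]
    linear_combination (c * τ c) * hbk
  have hmem : umat τ c zk ∈ Sgrp τ := umat_mem_Sgrp τ c zk hz
  have h1 : Matrix.GeneralLinearGroup.map ι (umat τ c zk) ∈ Gam τ ι s := by
    rw [← tw_zero ι s]; exact tw_mem τ ι s 0 _ hmem
  have h2 := D_pow_normal τ ι s _ h1 m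
  have h3 : Matrix.GeneralLinearGroup.map ev (Dmat 1 1 s ^ m *
      Matrix.GeneralLinearGroup.map ι (umat τ c zk) * (Dmat 1 1 s ^ m)⁻¹) =
      umat τ' (((ζ⁻¹ : Kˣ) : K) ^ m * j c) (j zk) := by
    rw [map_mul, map_mul, map_inv, map_Dmat_pow s ev ζ hζ, ← Dpow_conj τ' ζ hζ1]
    congr 2
    ext a b
    have hm : (Matrix.GeneralLinearGroup.map ev (Matrix.GeneralLinearGroup.map ι (umat τ c zk))) a b =
      ev (ι ((umat τ c zk).1 a b)) := rfl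
    rw [hm, hev, umat_val, umat_val]
    fin_cases a <;> fin_cases b <;> simp [hj]
  refine ⟨j zk, ?_, ?_⟩
  · have hζ2 : ((ζ⁻¹ : Kˣ) : K) * τ' ((ζ⁻¹ : Kˣ) : K) = 1 := by
      rw [Units.val_inv_eq_inv_val, map_inv₀, ← mul_inv, hζ1, inv_one]
    have hpow : ((ζ⁻¹ : Kˣ) : K) ^ m * (τ' ((ζ⁻¹ : Kˣ) : K)) ^ m = 1 := by
      rw [← mul_pow, hζ2, one_pow]
    have hL : j zk + τ' (j zk) = j c * j (τ c) := by
      rw [hj, ← map_add, hz, map_mul]
    have hR : τ' (j c * ((ζ⁻¹ : Kˣ) : K) ^ m) = j (τ c) * (τ' ((ζ⁻¹ : Kˣ) : K)) ^ m := by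
      rw [map_mul, map_pow, hj]
    rw [hL, hR]
    linear_combination (-(j c * j (τ c))) * hpow
  · rw [mem_Img]
    exact ⟨_, h2, by rw [h3, mul_comm]⟩

include hτ' hj hev hζ hζ1 in
theorem umat_some_mem (bk : k) (hbk : bk + τ bk = 1) (hτ : ∀ x, τ (τ x) = x) (x : K)
    (hx : ∃ p : Polynomial k, x = Polynomial.eval₂ j ((ζ⁻¹ : Kˣ) : K) p) :
    ∃ z : K, z + τ' z = x * τ' x ∧ umat τ' x z ∈ Img τ ι s ev := by
  obtain ⟨p, rfl⟩ := hx
  rw [Polynomial.eval₂_eq_sum_range]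
  refine Finset.sum_induction _ (fun x => ∃ z : K, z + τ' z = x * τ' x ∧
    umat τ' x z ∈ Img τ ι s ev) ?_ ?_ ?_
  · rintro x y ⟨z, hz, hx⟩ ⟨z', hz', hy⟩
    refine ⟨z + z' + x * τ' y, cond_add τ' x z y z' hτ' hz hz', ?_⟩
    rw [← umat_mul τ' _ _ _ _ hτ']
    exact (Img τ ι s ev).mul_mem hx hy
  · refine ⟨0, by simp, ?_⟩
    rw [umat_zero]
    exact (Img τ ι s ev).one_mem
  · intro m _
    exact umat_pow_mem τ ι s τ' hτ' j hj ev hev ζ hζ hζ1 bk hbk hτ _ m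

include hτ' hj hev hζ hζ1 in
theorem umat_all_mem (bk : k) (hbk : bk + τ bk = 1) (hτ : ∀ x, τ (τ x) = x)
    (hadj : ∀ x : K, ∃ p : Polynomial k, x = Polynomial.eval₂ j ((ζ⁻¹ : Kˣ) : K) p)
    (x z : K) (hz : z + τ' z = x * τ' x) : umat τ' x z ∈ Img τ ι s ev := by
  have two : (2 : K) = 0 := two_eq_zero'
  obtain ⟨z1, hz1, h1⟩ := umat_some_mem τ ι s τ' hτ' j hj ev hev ζ hζ hζ1 bk hbk hτ x (hadj x)
  set a := z1 + z with ha
  have haa : a + τ' a = 0 := by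
    rw [ha, map_add]; linear_combination hz1 + hz + (x * τ' x) * two
  have hτa : τ' a = a := by linear_combination haa - a * two
  set b := j bk with hb
  have hbb : b + τ' b = 1 := by rw [hb, hj, ← map_add, hbk, map_one]
  obtain ⟨z2, hz2, h2⟩ := umat_some_mem τ ι s τ' hτ' j hj ev hev ζ hζ hζ1 bk hbk hτ
    (a * b) (hadj _)
  obtain ⟨z3, hz3, h3⟩ := umat_some_mem τ ι s τ' hτ' j hj ev hev ζ hζ hζ1 bk hbk hτ
    1 (hadj _)
  have h4 : umat τ' 0 a ∈ Img τ ι s ev := by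
    have h5 := umat_comm' τ' hτ' (a * b) z2 1 z3
    have h6 : a * b * τ' 1 + 1 * τ' (a * b) = a := by
      rw [map_one, map_mul, hτa]
      linear_combination a * hbb
    rw [h6] at h5
    rw [← h5]
    exact (Img τ ι s ev).mul_mem ((Img τ ι s ev).mul_mem ((Img τ ι s ev).mul_mem h2 h3)
      ((Img τ ι s ev).inv_mem h2)) ((Img τ ι s ev).inv_mem h3)
  have h5 : umat τ' x z = umat τ' x z1 * umat τ' 0 a := by
    rw [umat_mul τ' _ _ _ _ hτ']
    congr 1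
    · rw [add_zero]
    · rw [map_zero, mul_zero, add_zero, ha]
      linear_combination (-z1) * two
  rw [h5]
  exact (Img τ ι s ev).mul_mem h1 h4

end Pool.Y52.PT
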