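import Pool.Agent.Y52.PT.Gam

/-! # The isotropic points and the action of the unitary group -/

set_option autoImplicit false

namespace Pool.Y52.PT

open Matrix

variable {K : Type} [Field K] (τ : K →+* K)

/-- the isotropic points -/
def IsoPt : Type := {L : Submodule K (Fin 3 → K) // ∃ v : Fin 3 → K, v ≠ 0 ∧ form τ v v = 0 ∧
  L = Submodule.span K {v}}

/-- the point spanned by an isotropic vector -/
def pt (v : Fin 3 → K) (hv : v ≠ 0) (hv0 : form τ v v = 0) : IsoPt τ :=
  ⟨Submodule.span K {v}, v, hv, hv0, rfl⟩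

theorem pt_eq_iff (v w : Fin 3 → K) (hv : v ≠ 0) (hv0 : form τ v v = 0) (hw : w ≠ 0)
    (hw0 : form τ w w = 0) : pt τ v hv hv0 = pt τ w hw hw0 ↔ ∃ c : K, c ≠ 0 ∧ w = c • v := by
  have key : pt τ v hv hv0 = pt τ w hw hw0 ↔ Submodule.span K {v} = Submodule.span K {w} :=
    Subtype.ext_iff
  rw [key, Submodule.span_singleton_eq_span_singleton]
  constructor
  · rintro ⟨z, hz⟩
    exact ⟨z, z.ne_zero, hz.symm⟩
  · rintro ⟨c, hc, h⟩
    exact ⟨Units.mk0 c hc, h.symm⟩

theorem exists_pt (p : IsoPt τ) : ∃ v hv hv0, p = pt τ v hv hv0 := by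
  obtain ⟨L, v, hv, hv0, hL⟩ := p
  exact ⟨v, hv, hv0, Subtype.ext hL⟩

theorem map_span' (g : GL (Fin 3) K) (v : Fin 3 → K) :
    (Submodule.span K {v}).map g.1.mulVecLin = Submodule.span K {g.1 *ᵥ v} := by
  rw [Submodule.map_span, Set.image_singleton, Matrix.mulVecLin_apply]

/-- the action on points -/
def actPt (g : U3 τ) (p : IsoPt τ) : IsoPt τ :=
  ⟨p.1.map g.1.1.mulVecLin, by
    obtain ⟨L, v, hv, hv0, hL⟩ := p
    refine ⟨g.1.1 *ᵥ v, mulVec_ne_zero g.1 v hv, ?_, ?_⟩
    · rw [g.2]; exact hv0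
    · simp only [hL]
      exact map_span' g.1 v⟩

theorem actPt_pt (g : U3 τ) (v : Fin 3 → K) (hv : v ≠ 0) (hv0 : form τ v v = 0) :
    actPt τ g (pt τ v hv hv0) = pt τ (g.1.1 *ᵥ v) (mulVec_ne_zero g.1 v hv)
      (by rw [g.2]; exact hv0) :=
  Subtype.ext (map_span' g.1 v)

theorem actPt_one (p : IsoPt τ) : actPt τ 1 p = p := by
  apply Subtype.ext
  show p.1.map ((1 : U3 τ).1.1.mulVecLin) = p.1
  have : ((1 : U3 τ).1.1.mulVecLin) = (LinearMap.id : (Fin 3 → K) →ₗ[K] _) := by
    have e : (1 : U3 τ).1.1 = (1 : Matrix (Fin 3) (Fin 3) K) := rfl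
    rw [e, Matrix.mulVecLin_one]
  rw [this, Submodule.map_id]

theorem actPt_mul (g h : U3 τ) (p : IsoPt τ) :
    actPt τ (g * h) p = actPt τ g (actPt τ h p) := by
  apply Subtype.ext
  show p.1.map ((g * h : U3 τ).1.1.mulVecLin) = (p.1.map h.1.1.mulVecLin).map g.1.1.mulVecLin
  have e : (g * h : U3 τ).1.1 = g.1.1 * h.1.1 := rfl
  rw [e, Matrix.mulVecLin_mul, Submodule.map_comp]

/-- the permutation representation -/
def perm : U3 τ →* Equiv.Perm (IsoPt τ) where
  toFun g :=
    { toFun := actPt τ g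
      invFun := actPt τ g⁻¹
      left_inv := fun p => by rw [← actPt_mul, inv_mul_cancel, actPt_one]
      right_inv := fun p => by rw [← actPt_mul, mul_inv_cancel, actPt_one] }
  map_one' := by
    ext1 p
    exact actPt_one τ p
  map_mul' := by
    intro g h
    ext1 p
    exact actPt_mul τ g h p

theorem perm_apply (g : U3 τ) (p : IsoPt τ) : perm τ g p = actPt τ g p := rfl

theorem perm_pt (g : U3 τ) (v : Fin 3 → K) (hv : v ≠ 0) (hv0 : form τ v v = 0) :
    perm τ g (pt τ v hv hv0) = pt τ (g.1.1 *ᵥ v) (mulVec_ne_zero g.1 v hv)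
      (by rw [g.2]; exact hv0) := actPt_pt τ g v hv hv0

instance [Finite K] : Finite (IsoPt τ) := by
  haveI : Finite (Submodule K (Fin 3 → K)) :=
    Finite.of_injective (fun L => (L : Set (Fin 3 → K))) SetLike.coe_injective
  exact Subtype.finite

variable [CharP K 2]

/-- the vector `(1,1,0)` -/
def v0 : Fin 3 → K := ![1, 1, 0]

theorem v0_ne : (v0 : Fin 3 → K) ≠ 0 := by
  intro h
  have := congrFun h 0
  simp [v0] at this

theorem v0_iso : form τ v0 v0 = 0 := by
  simp [form, v0, CharTwo.add_self_eq_zero]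

/-- the base point -/
def x0 : IsoPt τ := pt τ v0 v0_ne (v0_iso τ)

theorem umat_v0 (x z : K) : (umat τ x z).1 *ᵥ v0 = v0 := by
  have h2 : (2 : K) = 0 := two_eq_zero'
  ext i
  rw [mulVec3, umat_val]
  fin_cases i
  · simp [v0]; linear_combination z * h2
  · simp [v0]; linear_combination z * h2
  · simp [v0]; linear_combination τ x * h2

/-- characterisation of the unipotent elements -/
theorem umat_char (hτ : ∀ x, τ (τ x) = x) (g : GL (Fin 3) K) (hg : g ∈ U3 τ)
    (h1 : g.1 *ᵥ v0 = v0) (x : K) (h2 : g.1 *ᵥ ee 2 = ee 2 + x • v0) :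
    ∃ z : K, z + τ z = x * τ x ∧ g = umat τ x z := by
  have two : (2 : K) = 0 := two_eq_zero'
  -- entries of the third column
  have c0 : g.1 0 2 = x := by
    have := congrFun h2 0; simpa [mulVec3, ee_apply, v0] using this
  have c1 : g.1 1 2 = x := by
    have := congrFun h2 1; simpa [mulVec3, ee_apply, v0] using this
  have c2 : g.1 2 2 = 1 := by
    have := congrFun h2 2; simpa [mulVec3, ee_apply, v0] using this
  have r0 : g.1 0 0 + g.1 0 1 = 1 := by
    have := congrFun h1 0; simpa [mulVec3, v0] using this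
  have r1 : g.1 1 0 + g.1 1 1 = 1 := by
    have := congrFun h1 1; simpa [mulVec3, v0] using this
  have r2 : g.1 2 0 + g.1 2 1 = 0 := by
    have := congrFun h1 2; simpa [mulVec3, v0] using this
  set a := g.1 0 0 with ha
  set z := g.1 1 0 with hz
  set y := g.1 2 0 with hy
  -- orthogonality relations of the first column
  have o1 : a + z = 1 := by
    have := hg (ee 0) v0
    rw [h1] at this
    simpa [form, mulVec3, ee_apply, v0] using this
  have o2 : a * τ x + z * τ x + y = 0 := by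
    have := hg (ee 0) (ee 2)
    simpa [form, mulVec3, ee_apply, c0, c1, c2, ← ha, ← hz, ← hy] using this
  have o3 : a * τ a + z * τ z + y * τ y = 1 := by
    have := hg (ee 0) (ee 0)
    simpa [form, mulVec3, ee_apply, ← ha, ← hz, ← hy] using this
  have ea : a = 1 + z := by linear_combination o1 - z * two
  have ey : y = τ x := by
    have : y = τ x * (a + z) := by linear_combination o2 - (a * τ x + z * τ x) * two
    rw [this, o1, mul_one]
  have ezz : z + τ z = x * τ x := by
    rw [ea, ey, map_add, map_one, hτ] at o3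
    linear_combination o3 - (z * τ z + x * τ x) * two
  refine ⟨z, ezz, ?_⟩
  have e01 : g.1 0 1 = z := by linear_combination r0 - ea - (z) * two
  have e11 : g.1 1 1 = 1 + z := by linear_combination r1 - z * two
  have e21 : g.1 2 1 = τ x := by
    have : g.1 2 1 = y := by linear_combination r2 - y * two
    rw [this, ey]
  ext i j
  rw [umat_val]
  fin_cases i <;> fin_cases j
  · simpa [ha] using ea
  · simpa using e01
  · simpa using c0
  · simp [hz]
  · simpa using e11
  · simpa using c1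
  · simpa [hy] using ey
  · simpa using e21
  · simpa using c2

/-- the stabiliser of the base point normalises the unipotent group -/
theorem umat_normal (hτ : ∀ x, τ (τ x) = x) (h : GL (Fin 3) K) (hU : h ∈ U3 τ) (c : K)
    (hc : c ≠ 0) (hv : h.1 *ᵥ v0 = c • v0) (x z : K) (hz : z + τ z = x * τ x) :
    ∃ x' z' : K, z' + τ z' = x' * τ x' ∧ h * umat τ x z * h⁻¹ = umat τ x' z' := by
  have hinv : (h⁻¹).1 *ᵥ v0 = c⁻¹ • v0 := by
    have h1 := inv_mulVec_cancel h v0
    rw [hv, Matrix.mulVec_smul] at h1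
    calc (h⁻¹).1 *ᵥ v0 = c⁻¹ • (c • ((h⁻¹).1 *ᵥ v0)) := by
          rw [smul_smul, inv_mul_cancel₀ hc, one_smul]
      _ = c⁻¹ • v0 := by rw [h1]
  -- `h⁻¹ e₂` is orthogonal to `v0`
  set q := (h⁻¹).1 *ᵥ (ee 2 : Fin 3 → K) with hq
  have hq0 : form τ q v0 = 0 := by
    have h1 : form τ q v0 = form τ (h.1 *ᵥ q) (h.1 *ᵥ v0) := (hU _ _).symm
    rw [h1, hv, hq, mulVec_inv_cancel, form_smul_right]
    simp [form, ee_apply, v0]
  have hq01 : q 0 + q 1 = 0 := by
    simpa [form, v0] using hq0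
  have huq : (umat τ x z).1 *ᵥ q = q + (x * q 2) • v0 := by
    have two : (2 : K) = 0 := two_eq_zero'
    ext i
    rw [mulVec3, umat_val]
    fin_cases i
    · simp [v0]; linear_combination z * hq01
    · simp [v0]; linear_combination z * hq01
    · simp [v0]; linear_combination (τ x) * hq01
  obtain ⟨z', hz', he⟩ := umat_char τ hτ (h * umat τ x z * h⁻¹)
    ((U3 τ).mul_mem ((U3 τ).mul_mem hU (umat_mem τ hτ x z hz)) ((U3 τ).inv_mem hU))
    (by
      rw [mul_mulVec, mul_mulVec, hinv, Matrix.mulVec_smul, umat_v0, Matrix.mulVec_smul, hv,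
        smul_smul, inv_mul_cancel₀ hc, one_smul])
    (x * q 2 * c) (by
      rw [mul_mulVec, mul_mulVec, ← hq, huq, Matrix.mulVec_add, Matrix.mulVec_smul, hv, hq,
        mulVec_inv_cancel, smul_smul])
  exact ⟨_, z', hz', he⟩

end Pool.Y52.PT
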