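import Pool.Agent.Y52.PT.Trans

/-! # The quotients are simple two-transitive groups -/

set_option autoImplicit false

namespace Pool.Y52.PT

open Matrix
open scoped commutatorElement

variable {K : Type} [Field K] (τ : K →+* K) [CharP K 2]

theorem umat_zero : umat τ 0 0 = 1 := by
  ext i j
  rw [umat_val, Units.val_one]
  fin_cases i <;> fin_cases j <;> simp

theorem umat_inv (hτ : ∀ x, τ (τ x) = x) (x z : K) :
    (umat τ x z)⁻¹ = umat τ x (z + x * τ x) := by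
  rw [inv_eq_iff_mul_eq_one, umat_mul τ x z _ _ hτ, ← umat_zero τ]
  congr 1
  · exact CharTwo.add_self_eq_zero x
  · have two : (2 : K) = 0 := two_eq_zero'
    linear_combination (z + x * τ x) * two

theorem cond_add (x z x' z' : K) (hτ : ∀ x, τ (τ x) = x) (hz : z + τ z = x * τ x)
    (hz' : z' + τ z' = x' * τ x') :
    (z + z' + x * τ x') + τ (z + z' + x * τ x') = (x + x') * τ (x + x') := by
  simp only [map_add, map_mul, hτ]
  linear_combination hz + hz'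

theorem cond_inv (x z : K) (hτ : ∀ x, τ (τ x) = x) (hz : z + τ z = x * τ x) :
    (z + x * τ x) + τ (z + x * τ x) = x * τ x := by
  have two : (2 : K) = 0 := two_eq_zero'
  simp only [map_add, map_mul, hτ]
  linear_combination hz + (x * τ x) * two

variable {Gm : Type} [Group Gm] (F : Gm →* U3 τ)

/-- the quotient group -/
abbrev Qg : Subgroup (Equiv.Perm (IsoPt τ)) := ((perm τ).comp F).range

/-- the image of the unipotent group -/
def UQ (hτ : ∀ x, τ (τ x) = x) : Subgroup (Qg τ F) where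
  carrier := {q | ∃ (x z : K) (hz : z + τ z = x * τ x),
    q.1 = perm τ ⟨umat τ x z, umat_mem τ hτ x z hz⟩}
  mul_mem' := by
    rintro q q' ⟨x, z, hz, hq⟩ ⟨x', z', hz', hq'⟩
    refine ⟨x + x', z + z' + x * τ x', cond_add τ x z x' z' hτ hz hz', ?_⟩
    rw [Subgroup.coe_mul, hq, hq', ← map_mul]
    congr 1
    apply Subtype.ext
    exact umat_mul τ x z x' z' hτ
  one_mem' := by
    refine ⟨0, 0, by simp, ?_⟩
    rw [Subgroup.coe_one, ← map_one (perm τ)]
    congr 1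
    apply Subtype.ext
    exact (umat_zero τ).symm
  inv_mem' := by
    rintro q ⟨x, z, hz, hq⟩
    refine ⟨x, z + x * τ x, cond_inv τ x z hτ hz, ?_⟩
    rw [Subgroup.coe_inv, hq, ← map_inv]
    congr 1
    apply Subtype.ext
    exact umat_inv τ hτ x z

theorem mem_UQ (hτ : ∀ x, τ (τ x) = x) (q : Qg τ F) :
    q ∈ UQ τ F hτ ↔ ∃ (x z : K) (hz : z + τ z = x * τ x),
      q.1 = perm τ ⟨umat τ x z, umat_mem τ hτ x z hz⟩ := Iff.rfl

theorem UQ_pow (hτ : ∀ x, τ (τ x) = x) (q : UQ τ F hτ) : q ^ (2 ^ 2) = 1 := by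
  obtain ⟨q, x, z, hz, hq⟩ := q
  apply Subtype.ext
  apply Subtype.ext
  show q.1 ^ (2 ^ 2) = 1
  rw [hq, ← map_pow, ← map_one (perm τ)]
  congr 1
  apply Subtype.ext
  show (umat τ x z) ^ (2 ^ 2) = 1
  have two : (2 : K) = 0 := two_eq_zero'
  have h1 : (umat τ x z) ^ 2 = umat τ 0 (x * τ x) := by
    rw [pow_two, umat_mul τ _ _ _ _ hτ]
    congr 1
    · exact CharTwo.add_self_eq_zero x
    · linear_combination z * two
  rw [show (2 ^ 2 : ℕ) = 2 * 2 by norm_num, pow_mul, h1, pow_two, umat_mul τ _ _ _ _ hτ,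
    ← umat_zero τ]
  congr 1
  · simp
  · rw [map_zero, mul_zero, add_zero]
    exact CharTwo.add_self_eq_zero _

instance [Finite K] : Finite (Qg τ F) := inferInstance

theorem UQ_solvable [Finite K] (hτ : ∀ x, τ (τ x) = x) : Group.IsSolvable (UQ τ F hτ) := by
  have hp : IsPGroup 2 (UQ τ F hτ) := fun g => ⟨2, UQ_pow τ F hτ g⟩
  haveI : Fact (Nat.Prime 2) := ⟨Nat.prime_two⟩
  haveI := hp.isNilpotent
  infer_instance

section hyps

variable (hτ : ∀ x, τ (τ x) = x) (b : K) (hb : b + τ b = 1)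
variable (h1 : ∀ x z : K, z + τ z = x * τ x → ∃ γ, (F γ).1 = umat τ x z)
variable (h2 : ∃ γ, (F γ).1 = Emat 1)
variable (h3 : ∀ P : Subgroup Gm, (∀ γ, (∃ g ∈ U3 τ, ∃ x z, z + τ z = x * τ x ∧
  (F γ).1 = g * umat τ x z * g⁻¹) → γ ∈ P) → ∀ γ, γ ∈ P)
variable (h4 : ∃ γ, ∃ μ : K, μ ≠ 1 ∧ ∀ x z : K,
  (F γ).1 * umat τ x z * (F γ).1⁻¹ = umat τ (μ * x) z)

/-- the element of the quotient given by an element of the group -/
def qof (γ : Gm) : Qg τ F := ⟨perm τ (F γ), γ, rfl⟩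

theorem qof_mul (γ γ' : Gm) : qof τ F (γ * γ') = qof τ F γ * qof τ F γ' := by
  apply Subtype.ext
  show perm τ (F (γ * γ')) = perm τ (F γ) * perm τ (F γ')
  rw [map_mul, map_mul]

theorem qof_surj (q : Qg τ F) : ∃ γ, qof τ F γ = q := by
  obtain ⟨q, γ, rfl⟩ := q
  exact ⟨γ, rfl⟩

theorem UQ_normal (q : Qg τ F) (hq : q.1 (x0 τ) = x0 τ) (u : Qg τ F) (hu : u ∈ UQ τ F hτ) :
    q * u * q⁻¹ ∈ UQ τ F hτ := by
  obtain ⟨γ, rfl⟩ := qof_surj τ F q
  obtain ⟨x, z, hz, hu⟩ := hu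
  have hq' : actPt τ (F γ) (x0 τ) = x0 τ := hq
  rw [x0, actPt_pt, eq_comm, pt_eq_iff] at hq'
  obtain ⟨c, hc, hcv⟩ := hq'
  obtain ⟨x', z', hz', he⟩ := umat_normal τ hτ (F γ).1 (F γ).2 c hc hcv x z hz
  refine ⟨x', z', hz', ?_⟩
  rw [Subgroup.coe_mul, Subgroup.coe_mul, Subgroup.coe_inv, hu]
  show perm τ (F γ) * _ * (perm τ (F γ))⁻¹ = _
  rw [← map_inv, ← map_mul, ← map_mul]
  congr 1
  exact Subtype.ext he

include h1 in
theorem UQ_regular (y z : IsoPt τ) (hy : y ≠ x0 τ) (hz : z ≠ x0 τ) (hb : b + τ b = 1) :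
    ∃! u : Qg τ F, u ∈ UQ τ F hτ ∧ u.1 y = z := by
  -- elements taking `y0` to `y` and `z`
  have key : ∀ p : IsoPt τ, p ≠ x0 τ → ∃ u : Qg τ F, u ∈ UQ τ F hτ ∧ u.1 (y0 τ b hb) = p := by
    intro p hp
    obtain ⟨x, z, hz, hact⟩ := reg_exists τ hτ b hb p hp
    obtain ⟨γ, hγ⟩ := h1 x z hz
    have hF : F γ = ⟨umat τ x z, umat_mem τ hτ x z hz⟩ := Subtype.ext hγ
    refine ⟨qof τ F γ, ⟨x, z, hz, ?_⟩, ?_⟩
    · show perm τ (F γ) = _
      rw [hF]
    · show actPt τ (F γ) _ = _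
      rw [hF]; exact hact
  have uniq : ∀ u u' : Qg τ F, u ∈ UQ τ F hτ → u' ∈ UQ τ F hτ →
      u.1 (y0 τ b hb) = u'.1 (y0 τ b hb) → u = u' := by
    rintro u u' ⟨x, z, hz, hu⟩ ⟨x', z', hz', hu'⟩ h
    rw [hu, hu'] at h
    have := reg_unique τ hτ b hb x z x' z' hz hz' h
    apply Subtype.ext
    rw [hu, hu']
    congr 1
    exact Subtype.ext this
  obtain ⟨uy, huy, huy'⟩ := key y hy
  obtain ⟨uz, huz, huz'⟩ := key z hz
  refine ⟨uz * uy⁻¹, ⟨(UQ τ F hτ).mul_mem huz ((UQ τ F hτ).inv_mem huy), ?_⟩, ?_⟩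
  · rw [Subgroup.coe_mul, Subgroup.coe_inv, Equiv.Perm.mul_apply, ← huy']
    have : (uy.1)⁻¹ (uy.1 (y0 τ b hb)) = y0 τ b hb := by
      rw [← Equiv.Perm.mul_apply, inv_mul_cancel, Equiv.Perm.one_apply]
    rw [this, huz']
  · rintro u ⟨hu, hu'⟩
    rw [eq_mul_inv_iff_mul_eq]
    apply uniq _ _ ((UQ τ F hτ).mul_mem hu huy) huz
    rw [Subgroup.coe_mul, Equiv.Perm.mul_apply, huy', hu', huz']

include hτ hb h1 h2 in
theorem Qg_two_trans (p q p' q' : IsoPt τ) (hpq : p ≠ q) (hpq' : p' ≠ q') :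
    ∃ g : Qg τ F, g.1 p = p' ∧ g.1 q = q' := by
  obtain ⟨γ, h5, h6⟩ := two_trans τ F hτ b hb h1 h2 p q p' q' hpq hpq'
  exact ⟨qof τ F γ, h5, h6⟩

include hτ b hb h1 h2 h3 in
theorem Qg_gen (P : Subgroup (Qg τ F)) (hP : ∀ g : Qg τ F, ∀ u ∈ UQ τ F hτ, g * u * g⁻¹ ∈ P) :
    P = ⊤ := by
  rw [eq_top_iff]
  intro q _
  obtain ⟨γ, rfl⟩ := qof_surj τ F q
  let fq : Gm →* Qg τ F := ((perm τ).comp F).rangeRestrict
  have hfq : ∀ γ, fq γ = qof τ F γ := fun γ => rfl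
  have := h3 (P.comap fq) ?_ γ
  · exact this
  · rintro γ' ⟨g, hg, x, z, hz, hγ'⟩
    rw [Subgroup.mem_comap, hfq]
    -- the point `g x0`
    obtain ⟨δ, hδ⟩ := exists_to_x0 τ F hτ b hb h1 h2 (actPt τ ⟨g, hg⟩ (x0 τ))
    -- `δ g` stabilises `x0`
    set h : U3 τ := F δ * ⟨g, hg⟩ with hh
    have hx : actPt τ h (x0 τ) = x0 τ := by rw [hh, actPt_mul, hδ]
    rw [x0, actPt_pt, eq_comm, pt_eq_iff] at hx
    obtain ⟨c, hc, hcv⟩ := hx
    obtain ⟨x', z', hz', he⟩ := umat_normal τ hτ h.1 h.2 c hc hcv x z hz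
    -- the conjugate of `γ'` by `δ`
    have hconj : (F (δ * γ' * δ⁻¹)).1 = umat τ x' z' := by
      rw [map_mul, map_mul, map_inv, Subgroup.coe_mul, Subgroup.coe_mul, Subgroup.coe_inv, hγ',
        ← he, hh, Subgroup.coe_mul]
      group
    have hmem : qof τ F (δ * γ' * δ⁻¹) ∈ UQ τ F hτ := by
      refine ⟨x', z', hz', ?_⟩
      show perm τ (F (δ * γ' * δ⁻¹)) = _
      congr 1
      exact Subtype.ext hconj
    have h5 := hP (qof τ F δ⁻¹) _ hmem
    have h6 : qof τ F δ⁻¹ * qof τ F (δ * γ' * δ⁻¹) * (qof τ F δ⁻¹)⁻¹ = qof τ F γ' := by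
      have e1 : (qof τ F δ⁻¹)⁻¹ = qof τ F δ := by
        rw [← hfq, ← hfq, map_inv, inv_inv]
      rw [e1, ← qof_mul, ← qof_mul]
      congr 1
      group
    rwa [h6] at h5

include hτ b hb h1 h2 h3 h4 in
theorem Qg_perfect : commutator (Qg τ F) = ⊤ := by
  have two : (2 : K) = 0 := two_eq_zero'
  let fq : Gm →* Qg τ F := ((perm τ).comp F).rangeRestrict
  have hfq : ∀ γ, fq γ = qof τ F γ := fun γ => rfl
  -- elements with second parameter only
  have step1 : ∀ a : K, a + τ a = 0 → ∀ γ, (F γ).1 = umat τ 0 a → qof τ F γ ∈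
      commutator (Qg τ F) := by
    intro a ha γ hγ
    have e1 : (b * (a * b) * 0 : K) = 0 := mul_zero _
    -- choose `x1 = a * b`, `x2 = 1`
    obtain ⟨γ1, hγ1⟩ := h1 (a * b) (a * b * (τ a * τ b) * b) (by
      simp only [map_mul, hτ]
      linear_combination (a * b * (τ a * τ b)) * hb)
    obtain ⟨γ2, hγ2⟩ := h1 1 b (by rw [map_one, mul_one]; exact hb)
    have h5 : (F ⁅γ1, γ2⁆).1 = umat τ 0 a := by
      rw [commutatorElement_def, map_mul, map_mul, map_mul, map_inv, map_inv]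
      simp only [Subgroup.coe_mul, Subgroup.coe_inv, hγ1, hγ2]
      rw [umat_inv τ hτ, umat_inv τ hτ, umat_mul τ _ _ _ _ hτ, umat_mul τ _ _ _ _ hτ,
        umat_mul τ _ _ _ _ hτ]
      have ea : τ a = a := by linear_combination ha - a * two
      congr 1
      · linear_combination (a * b + 1) * two
      · simp only [map_one, map_mul, map_add, hτ, ea]
        linear_combination a * hb + (a * b * (a * τ b) * b + b + a * b + 1 + a * b * (a * τ b)
          ) * two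
    have h6 : qof τ F γ = ⁅qof τ F γ1, qof τ F γ2⁆ := by
      have : ⁅qof τ F γ1, qof τ F γ2⁆ = qof τ F ⁅γ1, γ2⁆ := by
        rw [← hfq, ← hfq, ← hfq, map_commutatorElement]
      rw [this]
      apply Subtype.ext
      show perm τ (F γ) = perm τ (F ⁅γ1, γ2⁆)
      congr 1
      apply Subtype.ext
      rw [hγ, h5]
    rw [h6, commutator_def]
    exact Subgroup.commutator_mem_commutator (Subgroup.mem_top _) (Subgroup.mem_top _)
  have step2 : ∀ x z : K, z + τ z = x * τ x → ∀ γ, (F γ).1 = umat τ x z → qof τ F γ ∈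
      commutator (Qg τ F) := by
    intro x z hz γ hγ
    obtain ⟨δ, μ, hμ, hδ⟩ := h4
    have hμ' : μ + 1 ≠ 0 := by
      intro h
      apply hμ
      linear_combination h - two
    set x1 := x / (μ + 1) with hx1
    obtain ⟨γ1, hγ1⟩ := h1 x1 (x1 * τ x1 * b) (by
      simp only [map_mul, hτ]
      linear_combination (x1 * τ x1) * hb)
    have h5 : (F ⁅δ, γ1⁆).1 = umat τ (μ * x1) (x1 * τ x1 * b) *
        umat τ x1 (x1 * τ x1 * b + x1 * τ x1) := by
      rw [commutatorElement_def, map_mul, map_mul, map_mul, map_inv, map_inv]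
      simp only [Subgroup.coe_mul, Subgroup.coe_inv, hγ1]
      rw [hδ, umat_inv τ hτ]
    rw [umat_mul τ _ _ _ _ hτ] at h5
    have hx : μ * x1 + x1 = x := by
      rw [hx1]; field_simp
    rw [hx] at h5
    set z1 := x1 * τ x1 * b + (x1 * τ x1 * b + x1 * τ x1) + μ * x1 * τ x1 with hz1
    have hz1' : z1 + τ z1 = x * τ x := by
      have h6 : F ⁅δ, γ1⁆ ∈ (⊤ : Subgroup (U3 τ)) := Subgroup.mem_top _
      have h7 := (F ⁅δ, γ1⁆).2
      have h8 := h7 (ee 0) (ee 0)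
      rw [h5] at h8
      have h9 : (1 + z1) * (1 + τ z1) + z1 * τ z1 + τ x * x = 1 := by
        simpa [form, mulVec3, ee_apply, umat_val, hτ] using h8
      linear_combination h9 - (z1 * τ z1 + x * τ x) * two
    -- correct the second parameter
    have ha : (z1 + z) + τ (z1 + z) = 0 := by
      rw [map_add]
      linear_combination hz1' + hz + (x * τ x) * two - (0 : K)
    obtain ⟨γ2, hγ2⟩ := h1 0 (z1 + z) (by rw [ha]; simp)
    have hm1 := step1 (z1 + z) ha γ2 hγ2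
    have hm2 : qof τ F ⁅δ, γ1⁆ ∈ commutator (Qg τ F) := by
      have : qof τ F ⁅δ, γ1⁆ = ⁅qof τ F δ, qof τ F γ1⁆ := by
        rw [← hfq, ← hfq, ← hfq, map_commutatorElement]
      rw [this, commutator_def]
      exact Subgroup.commutator_mem_commutator (Subgroup.mem_top _) (Subgroup.mem_top _)
    have h10 : qof τ F γ = qof τ F ⁅δ, γ1⁆ * qof τ F γ2 := by
      rw [← qof_mul]
      apply Subtype.ext
      show perm τ (F γ) = perm τ (F (⁅δ, γ1⁆ * γ2))
      congr 1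
      apply Subtype.ext
      rw [map_mul, Subgroup.coe_mul, hγ, h5, hγ2, umat_mul τ _ _ _ _ hτ]
      congr 1
      · rw [add_zero]
      · rw [map_zero, mul_zero, add_zero]
        linear_combination - z1 * two
    rw [h10]
    exact (commutator (Qg τ F)).mul_mem hm2 hm1
  apply Qg_gen τ F hτ b hb h1 h2 h3
  intro g u hu
  obtain ⟨x, z, hz, hu'⟩ := hu
  obtain ⟨γ, hγ⟩ := h1 x z hz
  have hmem := step2 x z hz γ hγ
  have hu2 : u = qof τ F γ := by
    apply Subtype.ext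
    rw [hu']
    show _ = perm τ (F γ)
    congr 1
    exact Subtype.ext hγ.symm
  rw [hu2]
  exact (inferInstance : (commutator (Qg τ F)).Normal).conj_mem _ hmem g

include hτ b hb h1 h2 h3 h4 in
theorem Qg_simple [Finite K] : IsSimpleGroup (Qg τ F) := by
  haveI := UQ_solvable τ F hτ
  exact simple_criterion (Qg τ F).subtype (Subgroup.subtype_injective _)
    (Qg_two_trans τ F hτ b hb h1 h2) (x0 τ) (y0 τ b hb) (x0_ne_y0 τ b hb) (UQ τ F hτ)
    (fun u hu h hh => UQ_normal τ F hτ h hh u hu)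
    (Qg_gen τ F hτ b hb h1 h2 h3) (Qg_perfect τ F hτ b hb h1 h2 h3 h4)

end hyps

end Pool.Y52.PT
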