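import Pool.Agent.Y52.PT.Iter

/-! # Unitary representations and property (T) from three finite subgroups -/

set_option autoImplicit false

namespace Pool.Y52.PT

open scoped InnerProductSpace
open Filter Topology

/-- Kazhdan's property (T) of a discrete group. -/
def PropT (G : Type) [Group G] : Prop :=
  ∀ (H : Type) [NormedAddCommGroup H] [InnerProductSpace ℂ H] [CompleteSpace H]
    (ρ : G →* unitary (H →L[ℂ] H)),
    (∀ (S : Finset G) (ε : ℝ), 0 < ε →
      ∃ v : H, ‖v‖ = 1 ∧ ∀ s ∈ S, ‖(ρ s : H →L[ℂ] H) v - v‖ < ε) →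
    ∃ v : H, v ≠ 0 ∧ ∀ g : G, (ρ g : H →L[ℂ] H) v = v

variable {G : Type*} [Group G]
variable {H : Type*} [NormedAddCommGroup H] [InnerProductSpace ℂ H] [CompleteSpace H]

/-- the action -/
noncomputable def act (ρ : G →* unitary (H →L[ℂ] H)) (g : G) : H →L[ℂ] H := (ρ g : H →L[ℂ] H)

theorem act_one (ρ : G →* unitary (H →L[ℂ] H)) (v : H) : act ρ 1 v = v := by
  simp [act]

theorem act_mul (ρ : G →* unitary (H →L[ℂ] H)) (g h : G) (v : H) :
    act ρ (g * h) v = act ρ g (act ρ h v) := by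
  simp [act]

theorem act_inv_act (ρ : G →* unitary (H →L[ℂ] H)) (g : G) (v : H) :
    act ρ g⁻¹ (act ρ g v) = v := by
  rw [← act_mul, inv_mul_cancel, act_one]

theorem act_act_inv (ρ : G →* unitary (H →L[ℂ] H)) (g : G) (v : H) :
    act ρ g (act ρ g⁻¹ v) = v := by
  rw [← act_mul, mul_inv_cancel, act_one]

theorem inner_act (ρ : G →* unitary (H →L[ℂ] H)) (g : G) (v w : H) :
    ⟪act ρ g v, act ρ g w⟫_ℂ = ⟪v, w⟫_ℂ := by
  have h1 : star ((ρ g : H →L[ℂ] H)) * (ρ g : H →L[ℂ] H) = 1 :=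
    Unitary.coe_star_mul_self (ρ g)
  have h2 : (ContinuousLinearMap.adjoint (act ρ g)) (act ρ g v) = v := by
    have := congrArg (fun f : H →L[ℂ] H => f v) h1
    simpa [act, ContinuousLinearMap.star_eq_adjoint] using this
  rw [← ContinuousLinearMap.adjoint_inner_left, h2]

theorem norm_act (ρ : G →* unitary (H →L[ℂ] H)) (g : G) (v : H) : ‖act ρ g v‖ = ‖v‖ := by
  rw [@norm_eq_sqrt_re_inner ℂ, @norm_eq_sqrt_re_inner ℂ _ _ _ _ v, inner_act]

theorem inner_act_left (ρ : G →* unitary (H →L[ℂ] H)) (g : G) (v w : H) :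
    ⟪act ρ g v, w⟫_ℂ = ⟪v, act ρ g⁻¹ w⟫_ℂ := by
  rw [← inner_act ρ g v, act_act_inv]

/-- invariant vectors of a set -/
noncomputable def invs (ρ : G →* unitary (H →L[ℂ] H)) (A : Set G) : Submodule ℂ H where
  carrier := {v | ∀ a ∈ A, act ρ a v = v}
  zero_mem' := fun a _ => map_zero _
  add_mem' := fun {x y} hx hy a ha => by rw [map_add, hx a ha, hy a ha]
  smul_mem' := fun c x hx a ha => by rw [map_smul, hx a ha]

theorem mem_invs (ρ : G →* unitary (H →L[ℂ] H)) (A : Set G) (v : H) :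
    v ∈ invs ρ A ↔ ∀ a ∈ A, act ρ a v = v := Iff.rfl

theorem invs_closed (ρ : G →* unitary (H →L[ℂ] H)) (A : Set G) :
    IsClosed (invs ρ A : Set H) := by
  have : (invs ρ A : Set H) = ⋂ a ∈ A, {v | act ρ a v = v} := by
    ext v
    simp only [SetLike.mem_coe, mem_invs, Set.mem_iInter, Set.mem_setOf_eq]
  rw [this]
  exact isClosed_biInter (fun a _ => isClosed_eq (act ρ a).continuous continuous_id)

noncomputable instance (ρ : G →* unitary (H →L[ℂ] H)) (A : Set G) :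
    (invs ρ A).HasOrthogonalProjection := by
  haveI : CompleteSpace (invs ρ A) := (invs_closed ρ A).completeSpace_coe
  infer_instance

theorem invs_anti (ρ : G →* unitary (H →L[ℂ] H)) {A B : Set G} (h : A ⊆ B) :
    invs ρ B ≤ invs ρ A := fun _ hv a ha => hv a (h ha)

theorem Qp_of_mem (V : Submodule ℂ H) [V.HasOrthogonalProjection] (v : H) (hv : v ∈ V) :
    Qp V v = 0 := by
  rw [Qp, Submodule.starProjection_eq_self_iff.mpr hv, sub_self]

theorem Qp_le_dist (V : Submodule ℂ H) [V.HasOrthogonalProjection] (v w : H) (hw : w ∈ V) :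
    ‖Qp V v‖ ≤ ‖v - w‖ := by
  have : Qp V v = Qp V (v - w) := by rw [Qp_sub, Qp_of_mem V w hw, sub_zero]
  rw [this]
  exact Qp_norm_le V _

/-- averaging over a finite subgroup -/
theorem Qp_invs_le {S : Type*} [Group S] [Finite S] (ρ : G →* unitary (H →L[ℂ] H))
    (θ : S →* G) (A : Subgroup S) (v : H) (δ : ℝ) (hδ : ∀ a ∈ A, ‖act ρ (θ a) v - v‖ ≤ δ) :
    ‖Qp (invs ρ (A.map θ : Set G)) v‖ ≤ δ := by
  classical
  haveI : Fintype A := Fintype.ofFinite A
  set n : ℝ := (Fintype.card A : ℝ) with hn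
  have hn0 : 0 < n := by
    rw [hn]; exact_mod_cast Fintype.card_pos
  set w : H := (n⁻¹ : ℝ) • ∑ a : A, act ρ (θ a) v with hw
  have hwm : w ∈ invs ρ (A.map θ : Set G) := by
    intro b hb
    obtain ⟨b', hb', rfl⟩ := hb
    have h1 : act ρ (θ b') (∑ a : A, act ρ (θ a) v) = ∑ a : A, act ρ (θ a) v := by
      rw [map_sum]
      have h2 : ∀ a : A, act ρ (θ b') (act ρ (θ a) v) =
          (fun a : A => act ρ (θ a) v) (Equiv.mulLeft (⟨b', hb'⟩ : A) a) := by
        intro a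
        simp only [Equiv.coe_mulLeft, Subgroup.coe_mul, map_mul]
        rw [act_mul]
      rw [Finset.sum_congr rfl (fun a _ => h2 a)]
      exact Equiv.sum_comp (Equiv.mulLeft (⟨b', hb'⟩ : A)) (fun a : A => act ρ (θ a) v)
    rw [hw]
    have h3 : act ρ (θ b') ((n⁻¹ : ℝ) • ∑ a : A, act ρ (θ a) v) =
        (n⁻¹ : ℝ) • act ρ (θ b') (∑ a : A, act ρ (θ a) v) := by
      have := map_smul (act ρ (θ b')) ((n⁻¹ : ℝ) : ℂ) (∑ a : A, act ρ (θ a) v)
      simpa using this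
    rw [h3, h1]
  refine (Qp_le_dist _ v w hwm).trans ?_
  have h4 : v - w = (n⁻¹ : ℝ) • ∑ a : A, (v - act ρ (θ a) v) := by
    rw [Finset.sum_sub_distrib, smul_sub, ← hw]
    congr 1
    rw [Finset.sum_const, Finset.card_univ, ← Nat.cast_smul_eq_nsmul ℝ, smul_smul, ← hn,
      inv_mul_cancel₀ hn0.ne', one_smul]
  rw [h4, norm_smul, Real.norm_of_nonneg (by positivity)]
  have h5 : ‖∑ a : A, (v - act ρ (θ a) v)‖ ≤ ∑ a : A, δ := by
    refine (norm_sum_le _ _).trans (Finset.sum_le_sum (fun a _ => ?_))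
    rw [norm_sub_rev]
    exact hδ a a.2
  rw [Finset.sum_const, Finset.card_univ, nsmul_eq_mul, ← hn] at h5
  calc n⁻¹ * ‖∑ a : A, (v - act ρ (θ a) v)‖ ≤ n⁻¹ * (n * δ) :=
        mul_le_mul_of_nonneg_left h5 (by positivity)
    _ = δ := by rw [← mul_assoc, inv_mul_cancel₀ hn0.ne', one_mul]

/-- The angle condition for two subgroups of a finite group. -/
def AngleCond (S : Type) [Group S] (A B : Subgroup S) (c : ℝ) : Prop :=
  ∀ (H : Type) [NormedAddCommGroup H] [InnerProductSpace ℂ H] [CompleteSpace H]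
    (ρ : S →* unitary (H →L[ℂ] H)) (x y : H),
    x ∈ invs ρ (A : Set S) → y ∈ invs ρ (B : Set S) →
    (∀ s ∈ invs ρ (Set.univ : Set S), ⟪s, x⟫_ℂ = 0) →
    (∀ s ∈ invs ρ (Set.univ : Set S), ⟪s, y⟫_ℂ = 0) → ‖⟪x, y⟫_ℂ‖ ≤ c * (‖x‖ * ‖y‖)

theorem invs_comp {S : Type*} [Group S] (ρ : G →* unitary (H →L[ℂ] H))
    (θ : S →* G) (A : Set S) : invs (ρ.comp θ) A = invs ρ (θ '' A) := by
  ext v
  simp only [mem_invs, Set.mem_image, forall_exists_index, and_imp, forall_apply_eq_imp_iff₂]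
  rfl

theorem propT_of_angle (S : Type) [Group S] [Finite S] (A B : Subgroup S) (c : ℝ)
    (hc0 : 0 ≤ c) (hc : c < 1 / 2) (hang : AngleCond S A B c)
    (G : Type) [Group G] (θ : Fin 3 → S →* G)
    (hθ : ∀ i, B.map (θ i) = A.map (θ (i + 1)))
    (hgen : ∀ K : Subgroup G, (∀ i s, θ i s ∈ K) → ∀ g, g ∈ K) : PropT G := by
  intro H _ _ _ ρ hρ
  set V : Fin 3 → Submodule ℂ H := fun i => invs ρ (A.map (θ i) : Set G) with hV
  -- angle between neighbouring subspaces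
  have hang' : ∀ i : Fin 3, ∀ x ∈ V i, ∀ y ∈ V (i + 1),
      (∀ s ∈ invs ρ (Set.range (θ i)), ⟪s, x⟫_ℂ = 0) →
      (∀ s ∈ invs ρ (Set.range (θ i)), ⟪s, y⟫_ℂ = 0) → ‖⟪x, y⟫_ℂ‖ ≤ c * (‖x‖ * ‖y‖) := by
    intro i x hx y hy hx0 hy0
    have e1 : x ∈ invs (ρ.comp (θ i)) (A : Set S) := by
      rw [invs_comp]; exact hx
    have e2 : y ∈ invs (ρ.comp (θ i)) (B : Set S) := by
      rw [invs_comp]
      have : V (i + 1) = invs ρ (B.map (θ i) : Set G) := by rw [hθ i]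
      rw [this] at hy
      exact hy
    have e3 : invs (ρ.comp (θ i)) (Set.univ : Set S) = invs ρ (Set.range (θ i)) := by
      rw [invs_comp, Set.image_univ]
    exact hang H (ρ.comp (θ i)) x y e1 e2 (by rw [e3]; exact hx0) (by rw [e3]; exact hy0)
  have hUV : ∀ i : Fin 3, invs ρ (Set.range (θ i)) ≤ V i := by
    intro i
    refine invs_anti ρ ?_
    rintro _ ⟨a, _, rfl⟩
    exact ⟨a, rfl⟩
  have hUW : ∀ i : Fin 3, invs ρ (Set.range (θ i)) ≤ V (i + 1) := by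
    intro i
    have : V (i + 1) = invs ρ (B.map (θ i) : Set G) := by rw [hθ i]
    rw [this]
    refine invs_anti ρ ?_
    rintro _ ⟨a, _, rfl⟩
    exact ⟨a, rfl⟩
  have hp1 : ∀ i : Fin 3, ∀ v, (1 - c) * (‖Qp (V i) v‖ ^ 2 + ‖Qp (V (i + 1)) v‖ ^ 2) ≤
      ‖Qp (V i) v + Qp (V (i + 1)) v‖ ^ 2 := fun i v =>
    pair_ineq (V i) (V (i + 1)) (invs ρ (Set.range (θ i))) (hUV i) (hUW i) c hc0 (by linarith)
      (hang' i) v
  have hp : ∀ i j, i ≠ j → ∀ v, (1 - c) * (‖Qp (V i) v‖ ^ 2 + ‖Qp (V j) v‖ ^ 2) ≤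
      ‖Qp (V i) v + Qp (V j) v‖ ^ 2 := by
    intro i j hij v
    have hcase : j = i + 1 ∨ i = j + 1 := by
      revert i j; decide
    rcases hcase with h | h
    · rw [h]; exact hp1 i v
    · rw [h]
      have := hp1 j v
      rw [add_comm (‖Qp (V (j + 1)) v‖ ^ 2), add_comm (Qp (V (j + 1)) v)]
      exact this
  obtain ⟨C, hC, hnear⟩ := exists_near V c hc0 hc hp
  classical
  haveI : Fintype S := Fintype.ofFinite S
  obtain ⟨v, hv1, hv2⟩ := hρ
    (Finset.univ.image (fun p : Fin 3 × S => θ p.1 p.2)) (1 / (2 * C)) (by positivity)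
  have hv3 : ∀ i s, ‖act ρ (θ i s) v - v‖ ≤ 1 / (2 * C) := fun i s =>
    (hv2 (θ i s) (Finset.mem_image.mpr ⟨(i, s), Finset.mem_univ _, rfl⟩)).le
  have hQ : ∀ i, ‖Qp (V i) v‖ ≤ 1 / (2 * C) := fun i =>
    Qp_invs_le ρ (θ i) A v _ (fun a _ => hv3 i a)
  have hE : En V v ≤ 3 * (1 / (2 * C)) ^ 2 := by
    have : En V v ≤ ∑ _i : Fin 3, (1 / (2 * C)) ^ 2 :=
      Finset.sum_le_sum (fun i _ => pow_le_pow_left₀ (norm_nonneg _) (hQ i) 2)
    simpa using this
  obtain ⟨w, hwV, hwd⟩ := hnear v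
  have hw0 : w ≠ 0 := by
    rintro rfl
    rw [sub_zero, hv1] at hwd
    have h1 : Real.sqrt (En V v) ≤ Real.sqrt (3 * (1 / (2 * C)) ^ 2) := Real.sqrt_le_sqrt hE
    have h2 : Real.sqrt (3 * (1 / (2 * C)) ^ 2) < 1 / C := by
      rw [Real.sqrt_lt' (by positivity)]
      rw [div_pow, div_pow, mul_pow]
      have : 0 < C ^ 2 := by positivity
      rw [one_pow, ← mul_div_assoc, div_lt_div_iff₀ (by positivity) (by positivity)]
      nlinarith
    have h3 : C * Real.sqrt (En V v) < 1 := by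
      calc C * Real.sqrt (En V v) < C * (1 / C) :=
            mul_lt_mul_of_pos_left (lt_of_le_of_lt h1 h2) hC
        _ = 1 := by field_simp
    linarith
  -- invariance under the images of `S`
  have hwU : ∀ i : Fin 3, w ∈ invs ρ (Set.range (θ i)) := by
    intro i
    set U := invs ρ (Set.range (θ i)) with hU
    have h1 : Qp U w ∈ V i :=
      (V i).sub_mem (hwV i) (hUV i (U.starProjection_apply_mem w))
    have h2 : Qp U w ∈ V (i + 1) :=
      (V (i + 1)).sub_mem (hwV (i + 1)) (hUW i (U.starProjection_apply_mem w))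
    have h3 : ∀ s ∈ U, ⟪s, Qp U w⟫_ℂ = 0 := fun s hs => Qp_inner' U w s hs
    have h4 := hang' i _ h1 _ h2 h3 h3
    have h5 : ‖Qp U w‖ ^ 2 ≤ ‖⟪Qp U w, Qp U w⟫_ℂ‖ := by
      rw [@norm_sq_eq_re_inner ℂ]
      exact RCLike.re_le_norm _
    have h6 : ‖Qp U w‖ = 0 := by
      by_contra hne
      have : 0 < ‖Qp U w‖ := lt_of_le_of_ne (norm_nonneg _) (Ne.symm hne)
      nlinarith [mul_pos this this]
    rw [norm_eq_zero, Qp, sub_eq_zero] at h6
    rw [h6]
    exact U.starProjection_apply_mem w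
  refine ⟨w, hw0, fun g => ?_⟩
  let K : Subgroup G :=
    { carrier := {g | act ρ g w = w}
      mul_mem' := fun {a b} ha hb => by
        simp only [Set.mem_setOf_eq] at ha hb ⊢
        rw [act_mul, hb, ha]
      one_mem' := act_one ρ w
      inv_mem' := fun {a} ha => by
        simp only [Set.mem_setOf_eq] at ha ⊢
        conv_lhs => rw [← ha]
        rw [act_inv_act] }
  exact hgen K (fun i s => hwU i _ ⟨s, rfl⟩) g

end Pool.Y52.PT
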