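import Mathlib

/-! # Three closed subspaces with small pairwise angles -/

set_option autoImplicit false

namespace Pool.Y52.PT

open scoped InnerProductSpace

variable {H : Type*} [NormedAddCommGroup H] [InnerProductSpace ℂ H]

/-- complementary part of the orthogonal projection -/
noncomputable def Qp (V : Submodule ℂ H) [V.HasOrthogonalProjection] (v : H) : H :=
  v - V.starProjection v

theorem Qp_inner (V : Submodule ℂ H) [V.HasOrthogonalProjection] (v w : H) (hw : w ∈ V) :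
    ⟪Qp V v, w⟫_ℂ = 0 := Submodule.starProjection_inner_eq_zero v w hw

theorem Qp_inner' (V : Submodule ℂ H) [V.HasOrthogonalProjection] (v w : H) (hw : w ∈ V) :
    ⟪w, Qp V v⟫_ℂ = 0 := by
  rw [← inner_conj_symm, Qp_inner V v w hw, map_zero]

theorem Qp_inner_Qp (V : Submodule ℂ H) [V.HasOrthogonalProjection] (v w : H) :
    ⟪Qp V v, Qp V w⟫_ℂ = ⟪Qp V v, w⟫_ℂ := by
  conv_lhs => rw [Qp.eq_1 V w, inner_sub_right, Qp_inner V v _ (V.starProjection_apply_mem w),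
    sub_zero]

theorem Qp_norm_le (V : Submodule ℂ H) [V.HasOrthogonalProjection] (v : H) :
    ‖Qp V v‖ ≤ ‖v‖ := by
  have h1 : ‖Qp V v‖ ^ 2 = RCLike.re ⟪Qp V v, v⟫_ℂ := by
    rw [← Qp_inner_Qp V v v, ← norm_sq_eq_re_inner]
  have h2 : RCLike.re ⟪Qp V v, v⟫_ℂ ≤ ‖Qp V v‖ * ‖v‖ := re_inner_le_norm _ _
  by_contra hc
  push Not at hc
  have h3 : 0 < ‖Qp V v‖ := lt_of_le_of_lt (norm_nonneg _) hc
  nlinarith

theorem pair_ineq (V W U : Submodule ℂ H) [V.HasOrthogonalProjection]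
    [W.HasOrthogonalProjection] [U.HasOrthogonalProjection]
    (hUV : U ≤ V) (hUW : U ≤ W) (c : ℝ) (hc0 : 0 ≤ c) (hc1 : c < 1)
    (hang : ∀ x ∈ V, ∀ y ∈ W, (∀ s ∈ U, ⟪s, x⟫_ℂ = 0) → (∀ s ∈ U, ⟪s, y⟫_ℂ = 0) →
      ‖⟪x, y⟫_ℂ‖ ≤ c * (‖x‖ * ‖y‖)) (v : H) :
    (1 - c) * (‖Qp V v‖ ^ 2 + ‖Qp W v‖ ^ 2) ≤ ‖Qp V v + Qp W v‖ ^ 2 := by
  set w := Qp U v with hw
  have hu : U.starProjection v ∈ U := U.starProjection_apply_mem v
  have hvw : v = U.starProjection v + w := by rw [hw, Qp]; abel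
  have hwU : ∀ s ∈ U, ⟪s, w⟫_ℂ = 0 := fun s hs => Qp_inner' U v s hs
  have hV : Qp V v = Qp V w := by
    have : V.starProjection (U.starProjection v) = U.starProjection v :=
      Submodule.starProjection_eq_self_iff.mpr (hUV hu)
    conv_lhs => rw [Qp, hvw, map_add, this]
    rw [Qp]; abel
  have hW : Qp W v = Qp W w := by
    have : W.starProjection (U.starProjection v) = U.starProjection v :=
      Submodule.starProjection_eq_self_iff.mpr (hUW hu)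
    conv_lhs => rw [Qp, hvw, map_add, this]
    rw [Qp]; abel
  rw [hV, hW]
  set x := V.starProjection w with hx
  set y := W.starProjection w with hy
  have hxV : x ∈ V := V.starProjection_apply_mem w
  have hyW : y ∈ W := W.starProjection_apply_mem w
  have hxU : ∀ s ∈ U, ⟪s, x⟫_ℂ = 0 := by
    intro s hs
    have h1 : ⟪s, Qp V w⟫_ℂ = 0 := Qp_inner' V w s (hUV hs)
    rw [Qp, inner_sub_right, hwU s hs, zero_sub, neg_eq_zero] at h1
    exact h1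
  have hyU : ∀ s ∈ U, ⟪s, y⟫_ℂ = 0 := by
    intro s hs
    have h1 : ⟪s, Qp W w⟫_ℂ = 0 := Qp_inner' W w s (hUW hs)
    rw [Qp, inner_sub_right, hwU s hs, zero_sub, neg_eq_zero] at h1
    exact h1
  have hxy := hang x hxV y hyW hxU hyU
  have ea : Qp V w = w - x := rfl
  have eb : Qp W w = w - y := rfl
  -- inner products
  have h1 : ⟪x, w⟫_ℂ = ⟪x, x⟫_ℂ := by
    have := Qp_inner' V w x hxV
    rw [ea, inner_sub_right, sub_eq_zero] at this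
    exact this
  have h2 : ⟪y, w⟫_ℂ = ⟪y, y⟫_ℂ := by
    have := Qp_inner' W w y hyW
    rw [eb, inner_sub_right, sub_eq_zero] at this
    exact this
  have h1r : RCLike.re ⟪x, w⟫_ℂ = ‖x‖ ^ 2 := by rw [h1, ← norm_sq_eq_re_inner]
  have h2r : RCLike.re ⟪y, w⟫_ℂ = ‖y‖ ^ 2 := by rw [h2, ← norm_sq_eq_re_inner]
  have hww : RCLike.re ⟪w, w⟫_ℂ = ‖w‖ ^ 2 := by rw [← norm_sq_eq_re_inner]
  -- norms of the differences
  have na : ‖w - x‖ ^ 2 = ‖w‖ ^ 2 - ‖x‖ ^ 2 := by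
    rw [@norm_sub_sq ℂ, inner_re_symm, h1r]; ring
  have nb : ‖w - y‖ ^ 2 = ‖w‖ ^ 2 - ‖y‖ ^ 2 := by
    rw [@norm_sub_sq ℂ, inner_re_symm, h2r]; ring
  -- the sum x + y
  have hs1 : ‖x‖ ^ 2 + ‖y‖ ^ 2 ≤ ‖x + y‖ * ‖w‖ := by
    have : RCLike.re ⟪x + y, w⟫_ℂ = ‖x‖ ^ 2 + ‖y‖ ^ 2 := by
      rw [inner_add_left, map_add, h1r, h2r]
    rw [← this]
    exact re_inner_le_norm _ _
  have hs2 : ‖x + y‖ ^ 2 ≤ (1 + c) * (‖x‖ ^ 2 + ‖y‖ ^ 2) := by
    rw [@norm_add_sq ℂ]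
    have h3 : RCLike.re ⟪x, y⟫_ℂ ≤ c * (‖x‖ * ‖y‖) :=
      (RCLike.re_le_norm _).trans hxy
    nlinarith [sq_nonneg (‖x‖ - ‖y‖), norm_nonneg x, norm_nonneg y]
  set s := ‖x‖ ^ 2 + ‖y‖ ^ 2 with hsdef
  have hs0 : 0 ≤ s := by positivity
  have hs3 : s ≤ (1 + c) * ‖w‖ ^ 2 := by
    rcases hs0.eq_or_lt with h0 | h0
    · rw [← h0]; positivity
    · have h4 : s ^ 2 ≤ ‖x + y‖ ^ 2 * ‖w‖ ^ 2 := by
        rw [← mul_pow]; exact pow_le_pow_left₀ hs0 hs1 2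
      have h5 : s ^ 2 ≤ ((1 + c) * s) * ‖w‖ ^ 2 :=
        h4.trans (mul_le_mul_of_nonneg_right hs2 (by positivity))
      have h6 : s * s ≤ s * ((1 + c) * ‖w‖ ^ 2) := by nlinarith
      exact le_of_mul_le_mul_left h6 h0
  rw [ea, eb, na, nb]
  set t := ‖w‖ ^ 2 - ‖x‖ ^ 2 + (‖w‖ ^ 2 - ‖y‖ ^ 2) with ht
  have ht1 : (1 - c) * ‖w‖ ^ 2 ≤ t := by rw [ht]; nlinarith
  have ht0 : 0 ≤ t := le_trans (by apply mul_nonneg; linarith; positivity) ht1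
  have ht2 : t ≤ ‖w - x + (w - y)‖ * ‖w‖ := by
    have : RCLike.re ⟪w - x + (w - y), w⟫_ℂ = t := by
      rw [inner_add_left, inner_sub_left, inner_sub_left, map_add, map_sub, map_sub, h1r, h2r,
        hww]
    rw [← this]
    exact re_inner_le_norm _ _
  rcases ht0.eq_or_lt with h0 | h0
  · rw [← h0, mul_zero]; positivity
  · have h4 : t ^ 2 ≤ ‖w - x + (w - y)‖ ^ 2 * ‖w‖ ^ 2 := by
      rw [← mul_pow]; exact pow_le_pow_left₀ ht0 ht2 2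
    have h5 : t * ((1 - c) * t) ≤ t * ‖w - x + (w - y)‖ ^ 2 := by
      have h6 : (1 - c) * t ^ 2 ≤ ‖w - x + (w - y)‖ ^ 2 * ((1 - c) * ‖w‖ ^ 2) := by
        nlinarith [mul_le_mul_of_nonneg_left h4 (by linarith : (0:ℝ) ≤ 1 - c)]
      have h7 : ‖w - x + (w - y)‖ ^ 2 * ((1 - c) * ‖w‖ ^ 2) ≤ ‖w - x + (w - y)‖ ^ 2 * t :=
        mul_le_mul_of_nonneg_left ht1 (by positivity)
      nlinarith
    exact le_of_mul_le_mul_left h5 h0

end Pool.Y52.PT
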