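import Pool.Agent.Y52.PT.Pts
import Pool.Agent.Y52.PT.Crit

/-! # Two-transitivity and regularity -/

set_option autoImplicit false

namespace Pool.Y52.PT

open Matrix

variable {K : Type} [Field K] (τ : K →+* K) [CharP K 2]

/-- the second base vector -/
def wb (b : K) : Fin 3 → K := ![1 + b, b, 0]

theorem wb_ne (b : K) : wb b ≠ 0 := by
  intro h
  have h0 : 1 + b = 0 := congrFun h 0
  have h1 : b = 0 := congrFun h 1
  rw [h1, add_zero] at h0
  exact one_ne_zero h0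

theorem wb_iso (b : K) (hb : b + τ b = 1) : form τ (wb b) (wb b) = 0 := by
  have two : (2 : K) = 0 := two_eq_zero'
  simp [form, wb]
  linear_combination hb + (b * τ b + 1) * two

/-- the second base point -/
def y0 (b : K) (hb : b + τ b = 1) : IsoPt τ := pt τ (wb b) (wb_ne b) (wb_iso τ b hb)

theorem umat_wb (b x z : K) : (umat τ x z).1 *ᵥ wb b = ![1 + (z + b), z + b, τ x] := by
  have two : (2 : K) = 0 := two_eq_zero'
  ext i
  rw [mulVec3, umat_val]
  fin_cases i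
  · simp [wb]; linear_combination (z * b) * two
  · simp [wb]; linear_combination (z * b) * two
  · simp [wb]; linear_combination (τ x * b) * two

/-- every isotropic point other than the base point is reached -/
theorem reg_exists (hτ : ∀ x, τ (τ x) = x) (b : K) (hb : b + τ b = 1) (p : IsoPt τ)
    (hp : p ≠ x0 τ) : ∃ (x z : K) (hz : z + τ z = x * τ x),
      actPt τ ⟨umat τ x z, umat_mem τ hτ x z hz⟩ (y0 τ b hb) = p := by
  have two : (2 : K) = 0 := two_eq_zero'
  obtain ⟨v, hv, hv0, rfl⟩ := exists_pt τ p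
  have hv0' : v 0 * τ (v 0) + v 1 * τ (v 1) + v 2 * τ (v 2) = 0 := hv0
  have hδ : v 0 + v 1 ≠ 0 := by
    intro h
    have h1 : v 1 = v 0 := by linear_combination h - v 0 * two
    rw [h1] at hv0'
    have h2 : v 2 * τ (v 2) = 0 := by linear_combination hv0' - (v 0 * τ (v 0)) * two
    have h3 : v 2 = 0 := by
      rcases mul_eq_zero.mp h2 with h | h
      · exact h
      · exact (map_eq_zero_iff τ τ.injective).mp h
    apply hp
    rw [x0, pt_eq_iff]
    have h00 : v 0 ≠ 0 := by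
      intro h0
      apply hv
      ext i
      fin_cases i
      · exact h0
      · rw [h0] at h1; exact h1
      · exact h3
    refine ⟨(v 0)⁻¹, inv_ne_zero h00, ?_⟩
    ext i
    fin_cases i
    · simp [v0, h00]
    · simp [v0, h1, h00]
    · simp [v0, h3]
  set d := v 0 + v 1 with hd
  have hτd : τ d ≠ 0 := by
    intro h; exact hδ ((map_eq_zero_iff τ τ.injective).mp h)
  have hdτ : τ d = τ (v 0) + τ (v 1) := by rw [hd, map_add]
  set z := v 1 / d + b with hz
  set x := τ (v 2 / d) with hx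
  have hzx : z + τ z = x * τ x := by
    rw [hx, hτ, hz, map_add, map_div₀, map_div₀]
    field_simp
    have e0 : v 0 = d - v 1 := by rw [hd]; ring
    have e1 : τ (v 0) = τ d - τ (v 1) := by rw [hdτ]; ring
    rw [e1, e0] at hv0'
    linear_combination (d * τ d) * hb + (v 1 * τ (v 1) + d * τ d) * two - hv0'
  refine ⟨x, z, hzx, ?_⟩
  rw [y0, actPt_pt, pt_eq_iff]
  refine ⟨d, hδ, ?_⟩
  show v = d • ((umat τ x z).1 *ᵥ wb b)
  rw [umat_wb]
  ext i
  fin_cases i
  · simp only [hz]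
    simp
    field_simp
    linear_combination hd - (v 1 + b * d) * two
  · simp only [hz]
    simp
    field_simp
    linear_combination - (b * d) * two
  · simp only [hx, hτ]
    simp
    field_simp

/-- uniqueness -/
theorem reg_unique (hτ : ∀ x, τ (τ x) = x) (b : K) (hb : b + τ b = 1) (x z x' z' : K)
    (hz : z + τ z = x * τ x) (hz' : z' + τ z' = x' * τ x')
    (h : actPt τ ⟨umat τ x z, umat_mem τ hτ x z hz⟩ (y0 τ b hb) =
      actPt τ ⟨umat τ x' z', umat_mem τ hτ x' z' hz'⟩ (y0 τ b hb)) :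
    umat τ x z = umat τ x' z' := by
  have two : (2 : K) = 0 := two_eq_zero'
  rw [y0, actPt_pt, actPt_pt, pt_eq_iff] at h
  obtain ⟨c, hc, h⟩ := h
  have h' : (umat τ x' z').1 *ᵥ wb b = c • ((umat τ x z).1 *ᵥ wb b) := h
  rw [umat_wb, umat_wb] at h'
  have e0 : 1 + (z' + b) = c * (1 + (z + b)) := congrFun h' 0
  have e1 : z' + b = c * (z + b) := congrFun h' 1
  have e2 : τ x' = c * τ x := congrFun h' 2
  have c1 : c = 1 := by linear_combination e1 - e0
  rw [c1, one_mul] at e1 e2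
  have ez : z' = z := add_right_cancel e1
  have ex : x' = x := τ.injective e2
  rw [ez, ex]

theorem act_x0 (hτ : ∀ x, τ (τ x) = x) (x z : K) (hz : z + τ z = x * τ x) :
    actPt τ ⟨umat τ x z, umat_mem τ hτ x z hz⟩ (x0 τ) = x0 τ := by
  rw [x0, actPt_pt, pt_eq_iff]
  refine ⟨1, one_ne_zero, ?_⟩
  rw [one_smul]
  exact (umat_v0 τ x z).symm

theorem x0_ne_y0 (b : K) (hb : b + τ b = 1) : x0 τ ≠ y0 τ b hb := by
  intro h
  rw [x0, y0, pt_eq_iff] at h
  obtain ⟨c, hc, h⟩ := h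
  have e0 : 1 + b = c * 1 := congrFun h 0
  have e1 : b = c * 1 := congrFun h 1
  have : (1 : K) = 0 := by linear_combination e0 - e1
  exact one_ne_zero this

theorem act_eq_imp (g h : U3 τ) (p : IsoPt τ) (q : IsoPt τ) (h1 : actPt τ g p = q) :
    actPt τ g⁻¹ q = p := by
  rw [← h1, ← actPt_mul, inv_mul_cancel, actPt_one]

section grp

variable {Gm : Type} [Group Gm] (F : Gm →* U3 τ)
variable (hτ : ∀ x, τ (τ x) = x) (b : K) (hb : b + τ b = 1)
variable (h1 : ∀ x z : K, z + τ z = x * τ x → ∃ γ, (F γ).1 = umat τ x z)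
variable (h2 : ∃ γ, (F γ).1 = Emat 1)

include hτ h1 in
theorem exists_to_y0 (p : IsoPt τ) (hp : p ≠ x0 τ) :
    ∃ γ, actPt τ (F γ) p = y0 τ b hb ∧ actPt τ (F γ) (x0 τ) = x0 τ := by
  obtain ⟨x, z, hz, hact⟩ := reg_exists τ hτ b hb p hp
  obtain ⟨γ, hγ⟩ := h1 x z hz
  have hF : F γ = ⟨umat τ x z, umat_mem τ hτ x z hz⟩ := Subtype.ext hγ
  refine ⟨γ⁻¹, ?_, ?_⟩
  · rw [map_inv, ← hact, ← hF, ← actPt_mul, inv_mul_cancel, actPt_one]
  · have := act_x0 τ hτ x z hz
    rw [map_inv]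
    conv_lhs => rw [← this]
    rw [← hF, ← actPt_mul, inv_mul_cancel, actPt_one]

include hτ hb h1 h2 in
theorem exists_to_x0 (p : IsoPt τ) : ∃ γ, actPt τ (F γ) p = x0 τ := by
  by_cases hp : p = x0 τ
  · exact ⟨1, by rw [map_one, actPt_one, hp]⟩
  · obtain ⟨r, hr⟩ := h2
    have hrx : actPt τ (F r⁻¹) (x0 τ) ≠ x0 τ := by
      intro h
      have h' : actPt τ (F r) (x0 τ) = x0 τ := by
        conv_lhs => rw [← h]
        rw [map_inv, ← actPt_mul, mul_inv_cancel, actPt_one]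
      rw [x0, actPt_pt, pt_eq_iff] at h'
      obtain ⟨c, hc, h'⟩ := h'
      rw [hr] at h'
      have e1 := congrFun h' 1
      rw [Pi.smul_apply, mulVec3] at e1
      have : (1 : K) = 0 := by simpa [v0, Emat] using e1
      exact one_ne_zero this
    obtain ⟨γ1, hγ1, _⟩ := exists_to_y0 τ F hτ b hb h1 p hp
    obtain ⟨γ2, hγ2, _⟩ := exists_to_y0 τ F hτ b hb h1 _ hrx
    refine ⟨r * (γ2⁻¹ * γ1), ?_⟩
    have h3 : actPt τ (F (γ2⁻¹ * γ1)) p = actPt τ (F r⁻¹) (x0 τ) := by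
      rw [map_mul, actPt_mul, hγ1, map_inv, ← hγ2, ← actPt_mul, inv_mul_cancel, actPt_one]
    rw [map_mul, actPt_mul, h3, map_inv, ← actPt_mul, mul_inv_cancel, actPt_one]

include hτ h1 h2 in
theorem exists_pair (p q : IsoPt τ) (hpq : p ≠ q) :
    ∃ γ, actPt τ (F γ) p = x0 τ ∧ actPt τ (F γ) q = y0 τ b hb := by
  obtain ⟨γ, hγ⟩ := exists_to_x0 τ F hτ b hb h1 h2 p
  have hq : actPt τ (F γ) q ≠ x0 τ := by
    intro h
    apply hpq
    have := congrArg (actPt τ (F γ)⁻¹) (hγ.trans h.symm)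
    rwa [← actPt_mul, ← actPt_mul, inv_mul_cancel, actPt_one, actPt_one] at this
  obtain ⟨γ', h3, h4⟩ := exists_to_y0 τ F hτ b hb h1 _ hq
  refine ⟨γ' * γ, ?_, ?_⟩
  · rw [map_mul, actPt_mul, hγ, h4]
  · rw [map_mul, actPt_mul, h3]

include hτ hb h1 h2 in
theorem two_trans (p q p' q' : IsoPt τ) (hpq : p ≠ q) (hpq' : p' ≠ q') :
    ∃ γ, actPt τ (F γ) p = p' ∧ actPt τ (F γ) q = q' := by
  obtain ⟨γ, ha, hb'⟩ := exists_pair τ F hτ b hb h1 h2 p q hpq
  obtain ⟨γ', ha', hb''⟩ := exists_pair τ F hτ b hb h1 h2 p' q' hpq'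
  refine ⟨γ'⁻¹ * γ, ?_, ?_⟩
  · rw [map_mul, actPt_mul, ha, map_inv, ← ha', ← actPt_mul, inv_mul_cancel, actPt_one]
  · rw [map_mul, actPt_mul, hb', map_inv, ← hb'', ← actPt_mul, inv_mul_cancel, actPt_one]

end grp

end Pool.Y52.PT
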